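import Pool.Agent.L7h48.FU.Sum

set_option autoImplicit false

/-!
Means of the averaged partial sums over intervals.
-/

namespace Pool.Agent.L7h48.FU

open Finset Filter Topology MeasureTheory Complex
open Pool.Agent.H306R2 (dv dA dA_apply dA_mul dA_one zR aF aF_pos dv_nonneg)
open Pool.Agent.W184 (DS mv_DS dv_le_one gI)

noncomputable section

/-- Fubini on rectangles for bounded measurable functions -/
lemma fub {f : ℝ → ℝ → ℝ} (hf : Measurable (fun z : ℝ × ℝ => f z.1 z.2)) {B : ℝ}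
    (hB : ∀ s t, |f s t| ≤ B) {a b c d : ℝ} (hab : a ≤ b) (hcd : c ≤ d) :
    ∫ t in a..b, (∫ s in c..d, f s t) = ∫ s in c..d, ∫ t in a..b, f s t := by
  simp_rw [intervalIntegral.integral_of_le hab, intervalIntegral.integral_of_le hcd]
  refine integral_integral_swap (f := fun t s => f s t) ?_
  refine Integrable.of_bound (C := B) ?_ (Eventually.of_forall fun z => ?_)
  · exact (hf.comp measurable_swap).aestronglyMeasurable
  · rw [Real.norm_eq_abs]
    exact hB z.2 z.1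

/-- mean squares -/
lemma Am_sq {N : ℕ} {v a b : ℝ} (h6 : 6 * (N:ℝ) * (1 + Real.log N) ≤ b - a) {M : ℝ}
    (hab : a ≤ b)
    (hM : ∑ n ∈ Icc 1 N, gv v n ^ 2 * (n : ℝ) ^ (-(2 * (1 / 2 : ℝ))) + 1 ≤ M) :
    ∫ t in a..b, ‖Am N v t‖ ^ 2 ≤ (b - a) * M := by
  have h := mv_DS (gv0 v) (gv1 v) (σ := 1 / 2) le_rfl N a b
  have h1 := (abs_le.1 h).2
  have h2 : (b - a) * (∑ n ∈ Icc 1 N, gv v n ^ 2 * (n : ℝ) ^ (-(2 * (1 / 2 : ℝ))) + 1) ≤ (b - a) * M :=
    mul_le_mul_of_nonneg_left hM (by linarith)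
  have h3 : ∫ t in a..b, ‖Am N v t‖ ^ 2 =
      ∫ t in a..b, ‖DS (gv v) N (((1 / 2 : ℝ) : ℂ) + (t : ℂ) * I)‖ ^ 2 := rfl
  rw [h3]
  linarith

/-- the product of two sums -/
lemma prod_mean {N : ℕ} {v w a b p q α : ℝ} (hab : a ≤ b) (hp : 0 < p) (hq : 0 < q) (hα : 0 ≤ α)
    (h1 : ∫ t in a..b, ‖Am N v t‖ ^ 2 ≤ (b - a) * (α * p ^ (2:ℕ)))
    (h2 : ∫ t in a..b, ‖Am N w t‖ ^ 2 ≤ (b - a) * (α * q ^ (2:ℕ))) :
    ∫ t in a..b, ‖Am N v t‖ * ‖Am N w t‖ ≤ (b - a) * (α * (p * q)) := by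
  have c1 : Continuous (fun t => ‖Am N v t‖) := (Am_cont N v).norm
  have c2 : Continuous (fun t => ‖Am N w t‖) := (Am_cont N w).norm
  have h3 : ∫ t in a..b, ‖Am N v t‖ * ‖Am N w t‖ ≤
      ∫ t in a..b, (q / p / 2 * ‖Am N v t‖ ^ 2 + p / q / 2 * ‖Am N w t‖ ^ 2) := by
    refine intervalIntegral.integral_mono_on hab ((c1.mul c2).intervalIntegrable _ _)
      (Continuous.intervalIntegrable (by fun_prop) _ _) fun t _ => ?_
    have : q / p / 2 * ‖Am N v t‖ ^ 2 + p / q / 2 * ‖Am N w t‖ ^ 2 - ‖Am N v t‖ * ‖Am N w t‖ =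
        (q * ‖Am N v t‖ - p * ‖Am N w t‖) ^ 2 / (2 * p * q) := by
      field_simp
      ring
    have h4 : 0 ≤ (q * ‖Am N v t‖ - p * ‖Am N w t‖) ^ 2 / (2 * p * q) := by positivity
    linarith
  have k1 : IntervalIntegrable (fun t => q / p / 2 * ‖Am N v t‖ ^ 2) volume a b :=
    Continuous.intervalIntegrable (by fun_prop) _ _
  have k2 : IntervalIntegrable (fun t => p / q / 2 * ‖Am N w t‖ ^ 2) volume a b :=
    Continuous.intervalIntegrable (by fun_prop) _ _
  rw [intervalIntegral.integral_add k1 k2, intervalIntegral.integral_const_mul,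
    intervalIntegral.integral_const_mul] at h3
  have h4 : q / p / 2 * (∫ t in a..b, ‖Am N v t‖ ^ 2) ≤ q / p / 2 * ((b - a) * (α * p ^ (2:ℕ))) :=
    mul_le_mul_of_nonneg_left h1 (by positivity)
  have h5 : p / q / 2 * (∫ t in a..b, ‖Am N w t‖ ^ 2) ≤ p / q / 2 * ((b - a) * (α * q ^ (2:ℕ))) :=
    mul_le_mul_of_nonneg_left h2 (by positivity)
  have h6 : q / p / 2 * ((b - a) * (α * p ^ (2:ℕ))) + p / q / 2 * ((b - a) * (α * q ^ (2:ℕ))) =
      (b - a) * (α * (p * q)) := by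
    field_simp
    ring
  linarith

/-- the constant `B(9/8,9/8)` as an integral -/
def BB : ℝ := ∫ u in (0:ℝ)..1, (u * (1 - u)) ^ (1 / 8 : ℝ)

lemma kc : Continuous (fun u : ℝ => (u * (1 - u)) ^ (1 / 8 : ℝ)) :=
  Continuous.rpow_const (by fun_prop) (fun _ => Or.inr (by norm_num))

lemma BB_nonneg : 0 ≤ BB := by
  unfold BB
  exact intervalIntegral.integral_nonneg zero_le_one fun u hu =>
    Real.rpow_nonneg (mul_nonneg hu.1 (by linarith [hu.2])) _

lemma beta_int {x v0 : ℝ} (hx : 0 ≤ x) (hv : 0 ≤ v0) :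
    ∫ v in (0:ℝ)..x, ((v + v0) * (x - v + v0)) ^ (1 / 8 : ℝ) ≤ BB * (x + 2 * v0) ^ (5 / 4 : ℝ) := by
  set y := x + 2 * v0 with hy
  have hy0 : 0 ≤ y := by positivity
  have hkc : Continuous (fun u : ℝ => (u * (y - u)) ^ (1 / 8 : ℝ)) :=
    Continuous.rpow_const (by fun_prop) (fun _ => Or.inr (by norm_num))
  have e1 : ∫ v in (0:ℝ)..x, ((v + v0) * (x - v + v0)) ^ (1 / 8 : ℝ) =
      ∫ u in v0..(x + v0), (u * (y - u)) ^ (1 / 8 : ℝ) := by
    have h := intervalIntegral.integral_comp_add_right (a := 0) (b := x)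
      (fun u => (u * (y - u)) ^ (1 / 8 : ℝ)) v0
    rw [zero_add] at h
    rw [← h]
    refine intervalIntegral.integral_congr fun v _ => ?_
    show ((v + v0) * (x - v + v0)) ^ (1 / 8 : ℝ) = ((v + v0) * (y - (v + v0))) ^ (1 / 8 : ℝ)
    rw [hy]
    congr 2
    ring
  have e2 : ∫ u in v0..(x + v0), (u * (y - u)) ^ (1 / 8 : ℝ) ≤
      ∫ u in (0:ℝ)..y, (u * (y - u)) ^ (1 / 8 : ℝ) := by
    refine intervalIntegral.integral_mono_interval hv (by linarith) (by linarith) ?_
      (hkc.intervalIntegrable _ _)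
    rw [EventuallyLE, ae_restrict_iff' measurableSet_Ioc]
    refine Eventually.of_forall fun u hu => ?_
    exact Real.rpow_nonneg (mul_nonneg hu.1.le (by linarith [hu.2])) _
  have e3 : ∫ u in (0:ℝ)..y, (u * (y - u)) ^ (1 / 8 : ℝ) = BB * y ^ (5 / 4 : ℝ) := by
    rcases eq_or_lt_of_le hy0 with h | h
    · rw [← h]
      simp only [intervalIntegral.integral_same]
      rw [Real.zero_rpow (by norm_num), mul_zero]
    · have h1 := intervalIntegral.mul_integral_comp_mul_left (a := 0) (b := 1)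
        (f := fun u => (u * (y - u)) ^ (1 / 8 : ℝ)) y
      rw [mul_zero, mul_one] at h1
      have h3 : ∫ u in (0:ℝ)..1, (y * u * (y - y * u)) ^ (1 / 8 : ℝ) = y ^ (1 / 4 : ℝ) * BB := by
        unfold BB
        rw [← intervalIntegral.integral_const_mul]
        refine intervalIntegral.integral_congr fun u hu => ?_
        rw [Set.uIcc_of_le zero_le_one] at hu
        show (y * u * (y - y * u)) ^ (1 / 8 : ℝ) = y ^ (1 / 4 : ℝ) * (u * (1 - u)) ^ (1 / 8 : ℝ)
        have h2 : y * u * (y - y * u) = y ^ (2:ℕ) * (u * (1 - u)) := by ring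
        rw [h2, Real.mul_rpow (by positivity) (mul_nonneg hu.1 (by linarith [hu.2])),
          ← Real.rpow_natCast, ← Real.rpow_mul hy0]
        norm_num
      rw [← h1, h3, show (5 / 4 : ℝ) = 1 + 1 / 4 by norm_num, Real.rpow_add h, Real.rpow_one]
      ring
  rw [e1]
  exact e2.trans e3.le

/-- the mean of the averaged partial sum -/
theorem JJ_mean {N : ℕ} {x a b α v0 : ℝ} (hx : 0 ≤ x) (hN : Real.exp x ≤ N) (hab : a ≤ b)
    (h6 : 6 * (N:ℝ) * (1 + Real.log N) ≤ b - a) (hα : 0 ≤ α) (hv0 : 0 < v0)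
    (hM : ∀ v : ℝ, 0 ≤ v → ∑ n ∈ Icc 1 N, gv v n ^ 2 * (n : ℝ) ^ (-(2 * (1 / 2 : ℝ))) + 1 ≤
      α * (v + v0) ^ (1 / 4 : ℝ)) :
    ∫ t in a..b, ‖JJ N x t‖ ≤ (b - a) * (α * (BB * (x + 2 * v0) ^ (5 / 4 : ℝ))) := by
  have hba : 0 ≤ b - a := by linarith
  have hm2 : Measurable (fun z : ℝ × ℝ => ‖Am N z.1 z.2‖ * ‖Am N (x - z.1) z.2‖) := by
    refine ((Am_meas N).norm).mul ?_
    have : Measurable (fun z : ℝ × ℝ => (x - z.1, z.2)) := by fun_prop
    exact ((Am_meas N).comp this).norm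
  have hbd : ∀ s t : ℝ, |‖Am N s t‖ * ‖Am N (x - s) t‖| ≤ (N:ℝ) * N := by
    intro s t
    rw [abs_of_nonneg (by positivity)]
    exact mul_le_mul (Am_bd N s t) (Am_bd N _ t) (norm_nonneg _) (Nat.cast_nonneg N)
  have hJc : Continuous (fun t => ‖JJ N x t‖) := by
    unfold JJ
    exact (continuous_finsetSum _ fun n _ => continuous_const.mul (mo_cont n)).norm
  have hI : Measurable (fun t => ∫ s in (0:ℝ)..x, ‖Am N s t‖ * ‖Am N (x - s) t‖) := by
    simp_rw [intervalIntegral.integral_of_le hx]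
    have h := (hm2.comp measurable_swap).stronglyMeasurable
    exact (StronglyMeasurable.integral_prod_right (ν := volume.restrict (Set.Ioc 0 x))
      (f := fun t s => ‖Am N s t‖ * ‖Am N (x - s) t‖) h).measurable
  have hIb : ∀ t, |∫ s in (0:ℝ)..x, ‖Am N s t‖ * ‖Am N (x - s) t‖| ≤ (N:ℝ) * N * x := by
    intro t
    have hb := intervalIntegral.norm_integral_le_of_norm_le_const (a := 0) (b := x)
      (C := (N:ℝ) * N) (f := fun s => ‖Am N s t‖ * ‖Am N (x - s) t‖) (fun u _ => by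
        rw [Real.norm_eq_abs]; exact hbd u t)
    rwa [Real.norm_eq_abs, sub_zero, abs_of_nonneg hx] at hb
  calc ∫ t in a..b, ‖JJ N x t‖ ≤ ∫ t in a..b, ∫ s in (0:ℝ)..x, ‖Am N s t‖ * ‖Am N (x - s) t‖ := by
        refine intervalIntegral.integral_mono_on hab (hJc.intervalIntegrable _ _)
          (ii_of_bd hI hIb _ _) fun t _ => ?_
        rw [JJ_eq hx hN]
        refine (intervalIntegral.norm_integral_le_integral_norm hx).trans (le_of_eq ?_)
        simp_rw [norm_mul]
    _ = ∫ s in (0:ℝ)..x, ∫ t in a..b, ‖Am N s t‖ * ‖Am N (x - s) t‖ :=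
        fub (f := fun s t => ‖Am N s t‖ * ‖Am N (x - s) t‖) hm2 hbd hab hx
    _ ≤ ∫ s in (0:ℝ)..x, (b - a) * (α * ((s + v0) * (x - s + v0)) ^ (1 / 8 : ℝ)) := by
        refine intervalIntegral.integral_mono_on hx ?_ ?_ fun s hs => ?_
        · refine ii_of_bd (B := (N:ℝ) * N * (b - a)) ?_ ?_ _ _
          · simp_rw [intervalIntegral.integral_of_le hab]
            have h := hm2.stronglyMeasurable
            exact (StronglyMeasurable.integral_prod_right (ν := volume.restrict (Set.Ioc a b))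
              (f := fun s t => ‖Am N s t‖ * ‖Am N (x - s) t‖) h).measurable
          · intro s
            have hb := intervalIntegral.norm_integral_le_of_norm_le_const (a := a) (b := b)
              (C := (N:ℝ) * N) (f := fun t => ‖Am N s t‖ * ‖Am N (x - s) t‖) (fun u _ => by
                rw [Real.norm_eq_abs]; exact hbd s u)
            rwa [Real.norm_eq_abs, abs_of_nonneg hba] at hb
        · refine Continuous.intervalIntegrable ?_ _ _
          refine continuous_const.mul (continuous_const.mul ?_)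
          exact Continuous.rpow_const (by fun_prop) (fun _ => Or.inr (by norm_num))
        · have p1 : 0 < s + v0 := by linarith [hs.1]
          have p2 : 0 < x - s + v0 := by linarith [hs.2]
          have m1 := Am_sq (N := N) (v := s) h6 hab (hM s hs.1)
          have m2 := Am_sq (N := N) (v := x - s) h6 hab (hM (x - s) (by linarith [hs.2]))
          have q1 : ∀ y : ℝ, 0 < y → y ^ (1 / 4 : ℝ) = (y ^ (1 / 8 : ℝ)) ^ (2:ℕ) := by
            intro y hy
            rw [← Real.rpow_natCast, ← Real.rpow_mul hy.le]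
            norm_num
          rw [q1 _ p1] at m1
          rw [q1 _ p2] at m2
          have := prod_mean hab (Real.rpow_pos_of_pos p1 _) (Real.rpow_pos_of_pos p2 _) hα m1 m2
          rwa [← Real.mul_rpow p1.le p2.le] at this
    _ = (b - a) * (α * ∫ s in (0:ℝ)..x, ((s + v0) * (x - s + v0)) ^ (1 / 8 : ℝ)) := by
        rw [intervalIntegral.integral_const_mul, intervalIntegral.integral_const_mul]
    _ ≤ _ := by
        refine mul_le_mul_of_nonneg_left (mul_le_mul_of_nonneg_left ?_ hα) hba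
        exact beta_int hx hv0.le

end

end Pool.Agent.L7h48.FU
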