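import Pool.Agent.TH75.AFE2
import Pool.Agent.L7h48.FU.Mean

set_option autoImplicit false

/-!
The averaged approximate functional equation with lengths up to `T^(1-2η)` (the method of
`Pool.Agent.L7h20.TM4.Af`, with longer lengths).
-/

namespace Pool.Agent.L7h48.FU

open Finset Filter Topology MeasureTheory Complex
open Pool.Agent.W184 (DS mv_DS dv_le_one gI)
open Pool.Agent.H448R2.GC (cu cu_nonneg cu_le_one cu_cont cu_zero cs XX)

noncomputable section

/-- the logarithm of the conductor -/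
def lt (t : ℝ) : ℝ := Real.log (t / (2 * Real.pi))

theorem cs_conj (k : ℕ) (c D : ℝ) (s : ℂ) :
    cs k c D ((starRingEnd ℂ) s) = (starRingEnd ℂ) (cs k c D s) := by
  unfold cs
  rw [map_sum]
  refine Finset.sum_congr rfl ?_
  intro m hm
  rw [map_mul, Complex.conj_ofReal]
  congr 1
  have h := Complex.cpow_conj (m : ℂ) (-s) (by rw [Complex.natCast_arg]; exact Real.pi_pos.ne)
  rw [Complex.conj_natCast] at h
  rw [← map_neg, h]

theorem one_sub_cl (t : ℝ) : 1 - cl t = (starRingEnd ℂ) (cl t) := by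
  apply Complex.ext
  · simp [cl]; norm_num
  · simp [cl]

theorem norm_XX_cl (t : ℝ) : ‖XX (1 - cl t)‖ = 1 := by
  rw [one_sub_cl, Pool.Agent.H448R2.GC.X1.norm_XX_conj, Pool.Agent.H448R2.GC.X1.XX_eq]
  have h := H345.norm_XX_half t
  have e : cl t = 1 / 2 + (t : ℂ) * I := by unfold cl; push_cast; ring
  rw [e]
  exact h

lemma XX_conj_mul (t : ℝ) (z : ℂ) :
    XX (1 - cl t) * (starRingEnd ℂ) (XX (1 - cl t) * (starRingEnd ℂ) z) = z := by
  rw [map_mul, Complex.conj_conj, ← mul_assoc, Complex.mul_conj, Complex.normSq_eq_norm_sq,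
    norm_XX_cl]
  simp

lemma lt_bd {T t : ℝ} (hT : 0 < T) (h1 : T / 8 ≤ t) (h2 : t ≤ 8 * T) :
    Real.log T - 4 ≤ lt t ∧ lt t ≤ Real.log T + 1 / 3 := by
  have hpi := Real.pi_pos
  have ht : 0 < t := by linarith
  have hp3 := Real.pi_gt_three
  have hp4 := Real.pi_lt_d2
  unfold lt
  constructor
  · rw [Real.le_log_iff_exp_le (by positivity), Real.exp_sub, Real.exp_log hT,
      div_le_div_iff₀ (Real.exp_pos 4) (by positivity)]
    have h4 : (16 * 3.15 : ℝ) ≤ Real.exp 4 := by
      have h := Real.exp_one_gt_d9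
      have e : Real.exp 4 = Real.exp 1 ^ 4 := by rw [← Real.exp_nat_mul]; norm_num
      rw [e]
      have : (2.7182818283 : ℝ) ^ 4 ≤ Real.exp 1 ^ 4 := pow_le_pow_left₀ (by norm_num) h.le 4
      refine le_trans ?_ this
      norm_num
    calc T * (2 * Real.pi) ≤ T * (2 * 3.15) := by gcongr
      _ = T / 8 * (16 * 3.15) := by ring
      _ ≤ t * Real.exp 4 := by gcongr
  · rw [Real.log_le_iff_le_exp (by positivity), Real.exp_add, Real.exp_log hT,
      div_le_iff₀ (by positivity)]
    have h4 : (4 / 3 : ℝ) ≤ Real.exp (1 / 3) := by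
      have := Real.add_one_le_exp (1 / 3 : ℝ)
      linarith
    calc t ≤ 8 * T := h2
      _ = T * (4 / 3) * (2 * 3) := by ring
      _ ≤ T * Real.exp (1 / 3) * (2 * Real.pi) := by gcongr

/-- the approximate functional equation with all lengths up to `T^(1-2η)` -/
theorem afe_ext {η : ℝ} (hη : 0 < η) (hη1 : η ≤ 1 / 100) : ∃ k₀ : ℕ, ∀ K : ℕ, k₀ ≤ K →
    ∀ᶠ T : ℝ in atTop, ∀ t : ℝ, T / 8 ≤ t → t ≤ 8 * T → ∀ D : ℝ, 0 ≤ D →
      D ≤ (1 - 2 * η) * Real.log T →
      ‖riemannZeta (cl t) - cs K (η * Real.log T / K) D (cl t) - XX (1 - cl t) *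
        (starRingEnd ℂ) (cs K (η * Real.log T / K) (lt t - D - η * Real.log T) (cl t))‖ ≤
        3 * T ^ (-(1 / 5) : ℝ) := by
  obtain ⟨k₀, hk₀⟩ := Pool.Agent.TH75.AFE1.main η hη hη1
  refine ⟨k₀, fun K hK => ?_⟩
  obtain ⟨T₀, hT₀⟩ := hk₀ K hK
  filter_upwards [eventually_ge_atTop T₀, eventually_gt_atTop 1,
    Real.tendsto_log_atTop.eventually_ge_atTop (4 / η + 10)] with T hT hT1 hL t ht1 ht2 D hD0 hD1
  have hT0 : 0 < T := by linarith
  have hηL : 4 ≤ η * Real.log T := by
    have : η * (4 / η + 10) ≤ η * Real.log T := mul_le_mul_of_nonneg_left hL hη.le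
    have e : η * (4 / η + 10) = 4 + 10 * η := by field_simp
    linarith
  set L := Real.log T with hLd
  have hL10 : 10 ≤ L := by
    have : 0 < 4 / η := by positivity
    linarith
  have hηL' : η * L ≤ 1 / 100 * L := by nlinarith
  have h400 : 400 ≤ 4 / η := by
    rw [le_div_iff₀ hη]; linarith
  obtain ⟨l1, l2⟩ := lt_bd hT0 ht1 ht2
  rw [← hLd] at l1 l2
  set c := η * L / K with hc
  set X := XX (1 - cl t) with hX
  set z := riemannZeta (cl t) with hz
  set e := T ^ (-(1 / 5) : ℝ) with he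
  have he0 : 0 ≤ e := by positivity
  have hX1 : ‖X‖ = 1 := norm_XX_cl t
  have base : ∀ D : ℝ, 0 ≤ D → D ≤ 1 / 2 * L →
      ‖z - cs K c D (cl t) - X * (starRingEnd ℂ) (cs K c (lt t - D - η * L) (cl t))‖ ≤ e := by
    intro D h1 h2
    have := hT₀ T hT t ht1 D h1 h2 (cl t) rfl
    rw [one_sub_cl, cs_conj, ← one_sub_cl] at this
    exact this
  have conj : ∀ a b : ℂ, ‖z - a - X * (starRingEnd ℂ) b‖ ≤ e →
      ‖X * (starRingEnd ℂ) z - X * (starRingEnd ℂ) a - b‖ ≤ e := by
    intro a b h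
    have h1 : X * (starRingEnd ℂ) (z - a - X * (starRingEnd ℂ) b) =
        X * (starRingEnd ℂ) z - X * (starRingEnd ℂ) a - b := by
      rw [map_sub, map_sub, mul_sub, mul_sub, hX, XX_conj_mul]
    rw [← h1, norm_mul, hX1, one_mul, RCLike.norm_conj]
    exact h
  rcases le_or_gt D (1 / 2 * L) with hD | hD
  · have := base D hD0 hD
    linarith
  · -- the functional equation up to the error
    have f1 : ‖z - X * (starRingEnd ℂ) z‖ ≤ 2 * e := by
      have h1 := base ((lt t - η * L) / 2) (by linarith) (by linarith)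
      rw [show lt t - (lt t - η * L) / 2 - η * L = (lt t - η * L) / 2 by ring] at h1
      have h2 := conj _ _ h1
      set S := cs K c ((lt t - η * L) / 2) (cl t)
      have h3 : z - X * (starRingEnd ℂ) z = (z - S - X * (starRingEnd ℂ) S) -
          (X * (starRingEnd ℂ) z - X * (starRingEnd ℂ) S - S) := by ring
      rw [h3]
      refine (norm_sub_le _ _).trans ?_
      linarith
    have h1 := base (lt t - D - η * L) (by nlinarith) (by linarith)
    rw [show lt t - (lt t - D - η * L) - η * L = D by ring] at h1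
    have h2 := conj _ _ h1
    have h3 : z - cs K c D (cl t) - X * (starRingEnd ℂ) (cs K c (lt t - D - η * L) (cl t)) =
        (z - X * (starRingEnd ℂ) z) + (X * (starRingEnd ℂ) z -
          X * (starRingEnd ℂ) (cs K c (lt t - D - η * L) (cl t)) - cs K c D (cl t)) := by ring
    rw [h3]
    refine (norm_add_le _ _).trans ?_
    linarith

/-! ### smoothed sums of fixed length -/

/-- the smoothed partial sum -/
def gs (N k : ℕ) (c v t : ℝ) : ℂ := ∑ n ∈ Icc 1 N, ((cu k c (Real.log n - v) : ℝ) : ℂ) * mo n t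

theorem cs_ext (k : ℕ) (c D : ℝ) (hc : 0 < c) (N : ℕ) (hN : Real.exp (D + k * c) ≤ N) (t : ℝ) :
    cs k c D (cl t) = gs N k c D t := by
  unfold cs gs mo
  refine Finset.sum_subset ?_ ?_
  · intro m hm
    rw [Finset.mem_Icc] at hm ⊢
    refine ⟨hm.1, ?_⟩
    have h1 : (m : ℝ) ≤ Real.exp (D + k * c) :=
      le_trans (by exact_mod_cast hm.2) (Nat.floor_le (Real.exp_pos _).le)
    exact_mod_cast h1.trans hN
  · intro m hm hm'
    rw [Finset.mem_Icc] at hm hm'
    have h1 : ⌊Real.exp (D + k * c)⌋₊ < m := by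
      by_contra h
      exact hm' ⟨hm.1, by omega⟩
    have h2 : Real.exp (D + k * c) < m := (Nat.floor_lt (Real.exp_pos _).le).1 h1
    have hm0 : (0 : ℝ) < m := by exact_mod_cast hm.1
    have h3 : D + k * c < Real.log m := (Real.lt_log_iff_exp_lt hm0).2 h2
    rw [cu_zero k c _ hc (by linarith)]
    simp

lemma gs_cont (N k : ℕ) {c : ℝ} (hc : 0 < c) (t : ℝ) : Continuous (fun v => gs N (k + 1) c v t) := by
  unfold gs
  refine continuous_finsetSum _ fun m _ => ?_
  refine Continuous.mul (Complex.continuous_ofReal.comp ?_) continuous_const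
  exact (cu_cont k c hc).comp (by fun_prop)

lemma gs_jc (N k : ℕ) {c : ℝ} (hc : 0 < c) :
    Continuous (fun z : ℝ × ℝ => gs N (k + 1) c z.1 z.2) := by
  unfold gs
  refine continuous_finsetSum _ fun n _ => ?_
  have h1 := cu_cont k c hc
  have h2 := mo_cont n
  exact (Complex.continuous_ofReal.comp (h1.comp (by fun_prop :
    Continuous (fun z : ℝ × ℝ => Real.log n - z.1)))).mul (h2.comp continuous_snd)

lemma gs_bd (N k : ℕ) {c : ℝ} (hc : 0 < c) (v t : ℝ) : ‖gs N k c v t‖ ≤ N := by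
  unfold gs
  refine (norm_sum_le _ _).trans ?_
  have h : ∀ n ∈ Icc 1 N, ‖((cu k c (Real.log n - v) : ℝ) : ℂ) * mo n t‖ ≤ 1 := by
    intro n _
    rw [norm_mul, Complex.norm_real, Real.norm_eq_abs, abs_of_nonneg (cu_nonneg k c _ hc)]
    exact mul_le_one₀ (cu_le_one k c _ hc) (norm_nonneg _) (mo_norm t)
  refine (sum_le_sum h).trans ?_
  simp

/-- the mean of a smoothed sum -/
lemma gs_mean {N : ℕ} (k : ℕ) {c : ℝ} (hc : 0 < c) {a b : ℝ} (hab : a ≤ b) (hN : 1 ≤ N)
    (h6 : 6 * (N:ℝ) * (1 + Real.log N) ≤ b - a) (v : ℝ) :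
    ∫ t in a..b, ‖gs N (k + 1) c v t‖ ≤ (b - a) * Real.sqrt (2 + Real.log N) := by
  have hN1 : (1:ℝ) ≤ N := by exact_mod_cast hN
  have hlog : 0 ≤ Real.log N := Real.log_nonneg hN1
  set M := 2 + Real.log N with hM
  have hM0 : 0 < M := by linarith
  have h := mv_DS (g := fun n => cu (k + 1) c (Real.log n - v)) (fun n => cu_nonneg _ _ _ hc)
    (fun n => cu_le_one _ _ _ hc) (σ := 1 / 2) le_rfl N a b
  have h1 := (abs_le.1 h).2
  have h2 : ∑ n ∈ Icc 1 N, cu (k + 1) c (Real.log n - v) ^ 2 * (n : ℝ) ^ (-(2 * (1 / 2 : ℝ))) ≤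
      1 + Real.log N := by
    refine le_trans (sum_le_sum fun n _ => ?_) (Pool.Agent.W184.harm_le N)
    rw [show (-(2 * (1 / 2 : ℝ))) = -1 by norm_num, Real.rpow_neg_one, one_div]
    exact mul_le_of_le_one_left (by positivity)
      (pow_le_one₀ (cu_nonneg _ _ _ hc) (cu_le_one _ _ _ hc))
  have h3 : ∫ t in a..b, ‖gs N (k + 1) c v t‖ ^ 2 ≤ (b - a) * M := by
    have h4 := mul_le_mul_of_nonneg_left h2 (by linarith : 0 ≤ b - a)
    have h5 : ∫ t in a..b, ‖gs N (k + 1) c v t‖ ^ 2 = ∫ t in a..b,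
      ‖DS (fun n => cu (k + 1) c (Real.log n - v)) N (((1 / 2 : ℝ) : ℂ) + (t : ℂ) * I)‖ ^ 2 := rfl
    rw [h5, hM]
    linarith
  have hcont : Continuous (fun t => ‖gs N (k + 1) c v t‖) :=
    ((gs_jc N k hc).comp (Continuous.prodMk_right v)).norm
  have hs : 0 < Real.sqrt M := Real.sqrt_pos.2 hM0
  have hss : Real.sqrt M ^ 2 = M := Real.sq_sqrt hM0.le
  have h4 : ∫ t in a..b, ‖gs N (k + 1) c v t‖ ≤
      ∫ t in a..b, (1 / (2 * Real.sqrt M) * ‖gs N (k + 1) c v t‖ ^ 2 + Real.sqrt M / 2) := by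
    refine intervalIntegral.integral_mono_on hab (hcont.intervalIntegrable _ _)
      (Continuous.intervalIntegrable (by fun_prop) _ _) fun t _ => ?_
    set f := ‖gs N (k + 1) c v t‖
    have : 1 / (2 * Real.sqrt M) * f ^ 2 + Real.sqrt M / 2 - f = (f - Real.sqrt M) ^ 2 / (2 * Real.sqrt M) := by
      field_simp
      ring
    have h8 : 0 ≤ (f - Real.sqrt M) ^ 2 / (2 * Real.sqrt M) := by positivity
    linarith
  have k1 : IntervalIntegrable (fun t => 1 / (2 * Real.sqrt M) * ‖gs N (k + 1) c v t‖ ^ 2) volume a b :=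
    Continuous.intervalIntegrable (by fun_prop) _ _
  rw [intervalIntegral.integral_add k1 intervalIntegrable_const,
    intervalIntegral.integral_const_mul,
    intervalIntegral.integral_const, smul_eq_mul] at h4
  have h5 : 1 / (2 * Real.sqrt M) * (∫ t in a..b, ‖gs N (k + 1) c v t‖ ^ 2) ≤
      1 / (2 * Real.sqrt M) * ((b - a) * M) := mul_le_mul_of_nonneg_left h3 (by positivity)
  have h6 : 1 / (2 * Real.sqrt M) * ((b - a) * M) = (b - a) * Real.sqrt M / 2 := by
    nth_rewrite 2 [← hss]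
    field_simp
  linarith

/-! ### window averages -/

/-- primitive of the cutoff -/
def Pr (k : ℕ) (c x : ℝ) : ℝ := ∫ u in (0:ℝ)..x, cu k c u

lemma Pr_cont (k : ℕ) {c : ℝ} (hc : 0 < c) : Continuous (Pr k c) :=
  intervalIntegral.continuous_primitive
    (fun a b => Pool.Agent.H448R2.GC.K1.cu_int c hc k a b) 0

/-- window average of the cutoff -/
def uk (k : ℕ) (c H r : ℝ) : ℝ := (1 / H) * ∫ τ in (0:ℝ)..H, cu k c (r - τ)

lemma cu_avg (k : ℕ) {c : ℝ} (hc : 0 < c) (H r : ℝ) :
    ∫ τ in (0:ℝ)..H, cu k c (r - τ) = Pr k c r - Pr k c (r - H) := by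
  have h := intervalIntegral.integral_comp_sub_left (a := 0) (b := H) (fun u => cu k c u) r
  rw [sub_zero] at h
  rw [h]
  unfold Pr
  rw [intervalIntegral.integral_interval_sub_left
    (Pool.Agent.H448R2.GC.K1.cu_int c hc k _ _) (Pool.Agent.H448R2.GC.K1.cu_int c hc k _ _)]

lemma uk_eq (k : ℕ) {c : ℝ} (hc : 0 < c) (H r : ℝ) :
    uk k c H r = (1 / H) * (Pr k c r - Pr k c (r - H)) := by
  unfold uk
  rw [cu_avg k hc]

lemma uk_cont (k : ℕ) {c : ℝ} (hc : 0 < c) (H : ℝ) : Continuous (uk k c H) := by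
  have e : uk k c H = fun r => (1 / H) * (Pr k c r - Pr k c (r - H)) := by
    funext r
    exact uk_eq k hc H r
  rw [e]
  have := Pr_cont k hc
  fun_prop

lemma Pr_zero (c : ℝ) (x : ℝ) : Pr 0 c x = min x 0 := by
  unfold Pr
  rcases le_total x 0 with h | h
  · rw [min_eq_left h, intervalIntegral.integral_symm]
    have : ∫ u in x..(0:ℝ), cu 0 c u = ∫ u in x..(0:ℝ), (1:ℝ) := by
      refine intervalIntegral.integral_congr fun u hu => ?_
      rw [Set.uIcc_of_le h] at hu
      simp only [cu]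
      rw [if_pos hu.2]
    rw [this]; simp
  · rw [min_eq_right h]
    have : ∫ u in (0:ℝ)..x, cu 0 c u = ∫ u in (0:ℝ)..x, (0:ℝ) := by
      refine intervalIntegral.integral_congr_ae (Eventually.of_forall fun u hu => ?_)
      rw [Set.uIoc_of_le h] at hu
      simp only [cu]
      rw [if_neg (not_le.2 hu.1)]
    rw [this]; simp

lemma uk_zero {c : ℝ} (hc : 0 < c) (H r : ℝ) :
    uk 0 c H r = (1 / H) * (max (H - r) 0 - max (-r) 0) := by
  rw [uk_eq 0 hc, Pr_zero c, Pr_zero c]
  congr 1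
  rcases le_total r 0 with h | h <;> rcases le_total r H with h1 | h1
  · rw [min_eq_left h, min_eq_left (by linarith), max_eq_left (by linarith), max_eq_left (by linarith)]
    ring
  · rw [min_eq_left h, min_eq_right (by linarith), max_eq_right (by linarith),
      max_eq_left (by linarith)]
    ring
  · rw [min_eq_right h, min_eq_left (by linarith), max_eq_left (by linarith),
      max_eq_right (by linarith)]
    ring
  · rw [min_eq_right h, min_eq_right (by linarith), max_eq_right (by linarith),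
      max_eq_right (by linarith)]

lemma Pr_ii (k : ℕ) {c : ℝ} (hc : 0 < c) (a b : ℝ) : IntervalIntegrable (Pr k c) volume a b :=
  (Pr_cont k hc).intervalIntegrable _ _

lemma uk_succ (k : ℕ) {c : ℝ} (hc : 0 < c) (H r : ℝ) :
    uk (k + 1) c H r = (1 / c) * ∫ σ in (0:ℝ)..c, uk k c H (r - σ) := by
  have h1 : uk (k + 1) c H r = (1 / H) * (1 / c) *
      ((∫ τ in (0:ℝ)..H, Pr k c (r - τ)) - ∫ τ in (0:ℝ)..H, Pr k c (r - c - τ)) := by
    unfold uk
    rw [mul_assoc]
    congr 1
    rw [← intervalIntegral.integral_sub, ← intervalIntegral.integral_const_mul]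
    · refine intervalIntegral.integral_congr fun τ _ => ?_
      show cu (k + 1) c (r - τ) = _
      rw [show r - c - τ = (r - τ) - c by ring, ← cu_avg k hc]
      rfl
    · exact ((Pr_cont k hc).comp (by fun_prop : Continuous (fun τ : ℝ => r - τ))).intervalIntegrable _ _
    · exact ((Pr_cont k hc).comp (by fun_prop : Continuous (fun τ : ℝ => r - c - τ))).intervalIntegrable _ _
  have h2 : (1 / c) * ∫ σ in (0:ℝ)..c, uk k c H (r - σ) = (1 / H) * (1 / c) *
      ((∫ σ in (0:ℝ)..c, Pr k c (r - σ)) - ∫ σ in (0:ℝ)..c, Pr k c (r - H - σ)) := by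
    rw [mul_comm (1 / H), mul_assoc]
    congr 1
    rw [← intervalIntegral.integral_sub, ← intervalIntegral.integral_const_mul]
    · refine intervalIntegral.integral_congr fun σ _ => ?_
      show uk k c H (r - σ) = _
      rw [uk_eq k hc, show r - H - σ = (r - σ) - H by ring]
    · exact ((Pr_cont k hc).comp (by fun_prop : Continuous (fun τ : ℝ => r - τ))).intervalIntegrable _ _
    · exact ((Pr_cont k hc).comp (by fun_prop : Continuous (fun τ : ℝ => r - H - τ))).intervalIntegrable _ _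
  rw [h1, h2]
  congr 1
  have hQ : ∀ x y : ℝ, ∫ τ in (0:ℝ)..y, Pr k c (x - τ) =
      (∫ u in (0:ℝ)..x, Pr k c u) - ∫ u in (0:ℝ)..(x - y), Pr k c u := by
    intro x y
    have h := intervalIntegral.integral_comp_sub_left (a := 0) (b := y) (fun u => Pr k c u) x
    rw [sub_zero] at h
    rw [h, intervalIntegral.integral_interval_sub_left (Pr_ii k hc _ _) (Pr_ii k hc _ _)]
  rw [hQ, hQ, hQ, hQ, show r - c - H = r - H - c by ring]
  ring

lemma uk_bd (k : ℕ) {c : ℝ} (hc : 0 < c) {H : ℝ} (hH : 0 < H) (r : ℝ) : |uk k c H r| ≤ 1 := by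
  unfold uk
  have h := intervalIntegral.norm_integral_le_of_norm_le_const (a := 0) (b := H) (C := 1)
    (f := fun τ => cu k c (r - τ)) (fun u _ => by
      rw [Real.norm_eq_abs, abs_of_nonneg (cu_nonneg k c _ hc)]
      exact cu_le_one k c _ hc)
  rw [Real.norm_eq_abs, sub_zero, one_mul, abs_of_pos hH] at h
  rw [abs_mul, abs_of_pos (by positivity : 0 < 1 / H)]
  calc 1 / H * |∫ τ in (0:ℝ)..H, cu k c (r - τ)| ≤ 1 / H * H := by gcongr
    _ = 1 := by field_simp

/-- the window average of the smoothed partial sum -/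
def WW (N k : ℕ) (c H D t : ℝ) : ℂ := ∑ n ∈ Icc 1 N, ((uk k c H (Real.log n - D) : ℝ) : ℂ) * mo n t

lemma WW_zero (N : ℕ) {c : ℝ} (hc : 0 < c) (H D t : ℝ) :
    WW N 0 c H D t = ((1 / H : ℝ) : ℂ) * (JJ N (D + H) t - JJ N D t) := by
  unfold WW JJ
  rw [← sum_sub_distrib, mul_sum]
  refine sum_congr rfl fun n _ => ?_
  rw [uk_zero hc, show H - (Real.log n - D) = D + H - Real.log n by ring,
    show -(Real.log n - D) = D - Real.log n by ring]
  push_cast
  ring

lemma WW_cont (N k : ℕ) {c : ℝ} (hc : 0 < c) (H : ℝ) :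
    Continuous (fun z : ℝ × ℝ => WW N k c H z.1 z.2) := by
  unfold WW
  refine continuous_finsetSum _ fun n _ => ?_
  have h1 := uk_cont k hc H
  have h2 := mo_cont n
  exact (Complex.continuous_ofReal.comp (h1.comp (by fun_prop :
    Continuous (fun z : ℝ × ℝ => Real.log n - z.1)))).mul (h2.comp continuous_snd)

lemma WW_bd (N k : ℕ) {c : ℝ} (hc : 0 < c) {H : ℝ} (hH : 0 < H) (D t : ℝ) :
    ‖WW N k c H D t‖ ≤ N := by
  unfold WW
  refine (norm_sum_le _ _).trans ?_
  have h : ∀ n ∈ Icc 1 N, ‖((uk k c H (Real.log n - D) : ℝ) : ℂ) * mo n t‖ ≤ 1 := by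
    intro n _
    rw [norm_mul, Complex.norm_real, Real.norm_eq_abs]
    exact mul_le_one₀ (uk_bd k hc hH _) (norm_nonneg _) (mo_norm t)
  refine (sum_le_sum h).trans ?_
  simp

lemma WW_succ (N k : ℕ) {c : ℝ} (hc : 0 < c) (H D t : ℝ) :
    WW N (k + 1) c H D t = (1 / c : ℝ) * ∫ σ in (0:ℝ)..c, WW N k c H (D + σ) t := by
  unfold WW
  have hii : ∀ n : ℕ, IntervalIntegrable (fun σ : ℝ => ((uk k c H (Real.log n - (D + σ)) : ℝ) : ℂ))
      volume 0 c := by
    intro n
    exact (Complex.continuous_ofReal.comp ((uk_cont k hc H).comp (by fun_prop :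
      Continuous (fun σ : ℝ => Real.log n - (D + σ))))).intervalIntegrable _ _
  rw [intervalIntegral.integral_finsetSum (fun n _ => (hii n).mul_const _), mul_sum]
  refine sum_congr rfl fun n _ => ?_
  rw [intervalIntegral.integral_mul_const, intervalIntegral.integral_ofReal, uk_succ k hc]
  have e : ∀ σ : ℝ, Real.log n - (D + σ) = Real.log n - D - σ := fun σ => by ring
  simp only [e]
  push_cast
  ring

lemma par_cont {f : ℝ → ℝ → ℝ} (hf : Continuous (fun z : ℝ × ℝ => f z.1 z.2)) (a b : ℝ) :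
    Continuous (fun t => ∫ s in a..b, f s t) :=
  intervalIntegral.continuous_parametric_intervalIntegral_of_continuous'
    (f := fun t s => f s t) (hf.comp (continuous_snd.prodMk continuous_fst)) a b

/-- the smoothing does not increase the supremum of the means -/
theorem WM_le {a b : ℝ} (hab : a ≤ b) (N : ℕ) {c : ℝ} (hc : 0 < c) {H : ℝ}
    (hH : 0 < H) {M A : ℝ} (k : ℕ) : ∀ B : ℝ, (∀ D, A ≤ D → D ≤ B + k * c →
      ∫ t in a..b, ‖WW N 0 c H D t‖ ≤ M) →
    ∀ D, A ≤ D → D ≤ B → ∫ t in a..b, ‖WW N k c H D t‖ ≤ M := by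
  induction k with
  | zero =>
    intro B h D h1 h2
    exact h D h1 (by push_cast; linarith)
  | succ k ih =>
    intro B h D h1 h2
    have ih' := ih (B + c) (fun D' a1 a2 => h D' a1 (by push_cast; linarith))
    have hcont : Continuous (fun z : ℝ × ℝ => ‖WW N k c H (D + z.1) z.2‖) := by
      exact ((WW_cont N k hc H).comp (by fun_prop : Continuous (fun z : ℝ × ℝ => (D + z.1, z.2)))).norm
    have hbd : ∀ s t : ℝ, |‖WW N k c H (D + s) t‖| ≤ N :=
      fun s t => by rw [abs_of_nonneg (norm_nonneg _)]; exact WW_bd N k hc hH _ t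
    have hfub := fub (f := fun s t => ‖WW N k c H (D + s) t‖) hcont.measurable hbd hab hc.le
    have hcs : ∀ t, ‖WW N (k + 1) c H D t‖ ≤ (1 / c) * ∫ s in (0:ℝ)..c, ‖WW N k c H (D + s) t‖ := by
      intro t
      rw [WW_succ N k hc, norm_mul, Complex.norm_real, Real.norm_of_nonneg (by positivity)]
      exact mul_le_mul_of_nonneg_left (intervalIntegral.norm_integral_le_integral_norm hc.le)
        (by positivity)
    have hpc : Continuous (fun t => ∫ s in (0:ℝ)..c, ‖WW N k c H (D + s) t‖) :=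
      par_cont (f := fun s t => ‖WW N k c H (D + s) t‖) hcont 0 c
    calc ∫ t in a..b, ‖WW N (k + 1) c H D t‖ ≤
        ∫ t in a..b, ((1 / c) * ∫ s in (0:ℝ)..c, ‖WW N k c H (D + s) t‖) := by
          refine intervalIntegral.integral_mono_on hab
            ((((WW_cont N (k + 1) hc H).comp (Continuous.prodMk_right D)).norm).intervalIntegrable _ _)
            ((continuous_const.mul hpc).intervalIntegrable _ _) fun t _ => hcs t
      _ = (1 / c) * ∫ s in (0:ℝ)..c, ∫ t in a..b, ‖WW N k c H (D + s) t‖ := by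
          rw [intervalIntegral.integral_const_mul, hfub]
      _ ≤ (1 / c) * (c * M) := by
          refine mul_le_mul_of_nonneg_left ?_ (by positivity)
          have hm : ∀ s ∈ Set.Icc (0:ℝ) c, ∫ t in a..b, ‖WW N k c H (D + s) t‖ ≤ M := fun s hs =>
            ih' (D + s) (by linarith [hs.1]) (by linarith [hs.2])
          have h0 : ∀ s, 0 ≤ ∫ t in a..b, ‖WW N k c H (D + s) t‖ := fun s =>
            intervalIntegral.integral_nonneg hab fun t _ => norm_nonneg _
          have hb := intervalIntegral.norm_integral_le_of_norm_le_const (a := 0) (b := c) (C := M)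
            (f := fun s => ∫ t in a..b, ‖WW N k c H (D + s) t‖) (fun u hu => by
              rw [Set.uIoc_of_le hc.le] at hu
              rw [Real.norm_of_nonneg (h0 u)]
              exact hm u ⟨hu.1.le, hu.2⟩)
          rw [sub_zero, abs_of_pos hc] at hb
          have := (Real.le_norm_self _).trans hb
          linarith
      _ = M := by field_simp

lemma int_sub_le {g : ℝ → ℂ} (hg : Continuous g) {a b p q : ℝ} (hpq : p ≤ q)
    (ha : a ∈ Set.Icc p q) (hb : b ∈ Set.Icc p q) :
    ‖∫ v in a..b, g v‖ ≤ ∫ v in p..q, ‖g v‖ := by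
  refine (intervalIntegral.norm_integral_le_integral_norm_uIoc).trans ?_
  rw [intervalIntegral.integral_of_le hpq]
  refine setIntegral_mono_set ?_ (Eventually.of_forall fun _ => norm_nonneg _) ?_
  · have := hg.norm.intervalIntegrable (μ := volume) p q
    rwa [intervalIntegrable_iff_integrableOn_Ioc_of_le hpq] at this
  · refine LE.le.eventuallyLE ?_
    intro x hx
    rw [Set.mem_uIoc] at hx
    rcases hx with hx | hx
    · exact ⟨lt_of_le_of_lt ha.1 hx.1, hx.2.trans hb.2⟩
    · exact ⟨lt_of_le_of_lt hb.1 hx.1, hx.2.trans ha.2⟩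

lemma gs_avg (N k : ℕ) {c : ℝ} (hc : 0 < c) {H : ℝ} (hH : 0 < H) (D t : ℝ) :
    ∫ v in D..(D + H), gs N (k + 1) c v t = (H : ℂ) * WW N (k + 1) c H D t := by
  have hcc : ∀ n : ℕ, Continuous (fun v : ℝ => ((cu (k + 1) c (Real.log n - v) : ℝ) : ℂ)) :=
    fun n => Complex.continuous_ofReal.comp ((cu_cont k c hc).comp (by fun_prop))
  unfold gs
  rw [intervalIntegral.integral_finsetSum (fun n _ => ((hcc n).intervalIntegrable _ _).mul_const _)]
  unfold WW
  rw [mul_sum]
  refine sum_congr rfl fun n _ => ?_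
  rw [intervalIntegral.integral_mul_const, intervalIntegral.integral_ofReal]
  have h1 : ∫ v in D..(D + H), cu (k + 1) c (Real.log n - v) =
      H * uk (k + 1) c H (Real.log n - D) := by
    unfold uk
    have h := intervalIntegral.integral_comp_add_left (a := 0) (b := H)
      (fun v => cu (k + 1) c (Real.log n - v)) D
    rw [add_zero] at h
    rw [← h]
    have e : ∀ x : ℝ, Real.log n - (D + x) = Real.log n - D - x := fun x => by ring
    simp only [e]
    field_simp
  rw [h1]
  push_cast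
  ring

/-- the averaged approximate functional equation -/
theorem avg_afe {z X : ℂ} {e : ℝ} {N k : ℕ} {c : ℝ} (hc : 0 < c) {H : ℝ} (hH : 0 < H)
    {D lam t : ℝ} (hlam : |lam| ≤ 4) (hX : ‖X‖ = 1)
    (h : ∀ v ∈ Set.Icc D (D + H), ‖z - gs N (k + 1) c v t -
      X * (starRingEnd ℂ) (gs N (k + 1) c (2 * D + H + lam - v) t)‖ ≤ e) :
    ‖z‖ ≤ 2 * ‖WW N (k + 1) c H D t‖ + 1 / H * (∫ v in (D - 4)..(D + 4), ‖gs N (k + 1) c v t‖) +
      1 / H * (∫ v in (D + H - 4)..(D + H + 4), ‖gs N (k + 1) c v t‖) + e := by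
  obtain ⟨g, hg⟩ : ∃ g : ℝ → ℂ, ∀ v, gs N (k + 1) c v t = g v := ⟨_, fun _ => rfl⟩
  have hgc : Continuous g := by
    have e : g = fun v => gs N (k + 1) c v t := funext fun v => (hg v).symm
    rw [e]
    exact gs_cont N k hc t
  have hA0 : ∫ v in D..(D + H), g v = (H : ℂ) * WW N (k + 1) c H D t := by
    rw [← gs_avg N k hc hH D t]
    exact intervalIntegral.integral_congr fun v _ => (hg v).symm
  simp only [hg] at h ⊢
  have hl := abs_le.1 hlam
  have hg2 : Continuous (fun v => X * (starRingEnd ℂ) (g (2 * D + H + lam - v))) :=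
    continuous_const.mul (Complex.continuous_conj.comp (hgc.comp (by fun_prop)))
  have i1 : ∫ v in D..(D + H), (z - g v - X * (starRingEnd ℂ) (g (2 * D + H + lam - v))) =
      (H : ℂ) * z - (∫ v in D..(D + H), g v) -
        X * (starRingEnd ℂ) (∫ v in (D + lam)..(D + lam + H), g v) := by
    rw [intervalIntegral.integral_sub, intervalIntegral.integral_sub,
      intervalIntegral.integral_const, intervalIntegral.integral_const_mul]
    · have e1 : ∫ v in D..(D + H), (starRingEnd ℂ) (g (2 * D + H + lam - v)) =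
          (starRingEnd ℂ) (∫ v in (D + lam)..(D + lam + H), g v) := by
        rw [← intervalIntegral.intervalIntegral_conj]
        have h1 := intervalIntegral.integral_comp_sub_left (a := D) (b := D + H)
          (fun v => (starRingEnd ℂ) (g v)) (2 * D + H + lam)
        rw [show 2 * D + H + lam - (D + H) = D + lam by ring,
          show 2 * D + H + lam - D = D + lam + H by ring] at h1
        exact h1
      rw [e1]
      simp
    · exact continuous_const.intervalIntegrable _ _
    · exact hgc.intervalIntegrable _ _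
    · exact (continuous_const.sub hgc).intervalIntegrable _ _
    · exact hg2.intervalIntegrable _ _
  have i2 : ‖∫ v in D..(D + H), (z - g v - X * (starRingEnd ℂ) (g (2 * D + H + lam - v)))‖ ≤
      e * H := by
    have h1 := intervalIntegral.norm_integral_le_of_norm_le_const (a := D) (b := D + H) (C := e)
      (f := fun v => z - g v - X * (starRingEnd ℂ) (g (2 * D + H + lam - v))) (fun v hv => by
        rw [Set.uIoc_of_le (by linarith)] at hv
        exact h v ⟨hv.1.le, hv.2⟩)
    rwa [show D + H - D = H by ring, abs_of_pos hH] at h1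
  rw [i1] at i2
  set A := ∫ v in D..(D + H), g v with hA
  set B := ∫ v in (D + lam)..(D + lam + H), g v with hB
  have i3 : ‖B - A‖ ≤ (∫ v in (D - 4)..(D + 4), ‖g v‖) + ∫ v in (D + H - 4)..(D + H + 4), ‖g v‖ := by
    have h1 : B - A = (∫ v in (D + lam)..D, g v) - ∫ v in (D + lam + H)..(D + H), g v := by
      rw [hA, hB]
      exact intervalIntegral.integral_interval_sub_interval_comm (hgc.intervalIntegrable _ _)
        (hgc.intervalIntegrable _ _) (hgc.intervalIntegrable _ _)
    rw [h1]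
    refine (norm_sub_le _ _).trans (add_le_add ?_ ?_)
    · exact int_sub_le hgc (by linarith) ⟨by linarith [hl.1], by linarith [hl.2]⟩
        ⟨by linarith, by linarith⟩
    · exact int_sub_le hgc (by linarith) ⟨by linarith [hl.1], by linarith [hl.2]⟩
        ⟨by linarith, by linarith⟩
  have i4 : A = (H : ℂ) * WW N (k + 1) c H D t := hA0
  have i5 : ‖A‖ = H * ‖WW N (k + 1) c H D t‖ := by
    rw [i4, norm_mul, Complex.norm_real, Real.norm_of_nonneg hH.le]
  have i6 : ‖(H : ℂ) * z‖ = H * ‖z‖ := by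
    rw [norm_mul, Complex.norm_real, Real.norm_of_nonneg hH.le]
  have i7 : ‖(H : ℂ) * z‖ ≤ e * H + ‖A‖ + ‖B‖ := by
    have h1 : (H : ℂ) * z = ((H : ℂ) * z - A - X * (starRingEnd ℂ) B) + A + X * (starRingEnd ℂ) B := by
      ring
    rw [h1]
    refine (norm_add_le _ _).trans (add_le_add ((norm_add_le _ _).trans (add_le_add_left i2 _)) ?_)
    rw [norm_mul, hX, one_mul, RCLike.norm_conj]
  have i8 : ‖B‖ ≤ ‖A‖ + ‖B - A‖ := by
    have h1 : B = A + (B - A) := by ring
    calc ‖B‖ = ‖A + (B - A)‖ := by rw [← h1]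
      _ ≤ _ := norm_add_le _ _
  rw [i6] at i7
  rw [i5] at i7 i8
  set P := ∫ v in (D - 4)..(D + 4), ‖g v‖ with hP
  set Q := ∫ v in (D + H - 4)..(D + H + 4), ‖g v‖ with hQ
  have i9 : H * ‖z‖ ≤ H * (2 * ‖WW N (k + 1) c H D t‖ + 1 / H * P + 1 / H * Q + e) := by
    have : H * (2 * ‖WW N (k + 1) c H D t‖ + 1 / H * P + 1 / H * Q + e) =
        2 * (H * ‖WW N (k + 1) c H D t‖) + P + Q + e * H := by
      field_simp
    rw [this]
    linarith
  exact le_of_mul_le_mul_left i9 hH

end

end Pool.Agent.L7h48.FU
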