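import Pool.Agent.L7h48.FU.Afe

set_option autoImplicit false

/-!
The coefficient sum.
-/

namespace Pool.Agent.L7h48.FU

open Finset Filter Topology MeasureTheory Complex
open Pool.Agent.H306R2 (dv dA dA_apply dA_mul dA_one zR aF aF_pos dv_nonneg)
open Pool.Agent.W184 (DS mv_DS dv_le_one gI)

noncomputable section

/-- the main constant `A / Γ(5/4)` -/
def A0 : ℝ := aF (1 / 2) / Real.Gamma (5 / 4)

lemma A0_pos : 0 < A0 := by
  unfold A0
  exact div_pos (aF_pos (by norm_num)) (Real.Gamma_pos_of_pos (by norm_num))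

lemma gI_half : gI (1 / 2) 0 = 1 / Real.Gamma (5 / 4) := by
  unfold gI
  have h1 : ∫ x in (0:ℝ)..1, x ^ (((1:ℝ) / 2) ^ 2 - 1) / Real.Gamma ((1 / 2) ^ 2) *
      Real.exp (-(2 * 0 * x)) = ∫ x in (0:ℝ)..1, (1 / Real.Gamma (1 / 4)) * x ^ (-(3 / 4) : ℝ) := by
    refine intervalIntegral.integral_congr fun x _ => ?_
    show x ^ (((1:ℝ) / 2) ^ 2 - 1) / Real.Gamma ((1 / 2) ^ 2) * Real.exp (-(2 * 0 * x)) = 
      (1 / Real.Gamma (1 / 4)) * x ^ (-(3 / 4) : ℝ)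
    rw [show ((1:ℝ) / 2) ^ 2 = 1 / 4 by norm_num, show ((1:ℝ) / 4 - 1) = -(3 / 4) by norm_num,
      show -(2 * 0 * x) = 0 by ring, Real.exp_zero]
    ring
  rw [h1, intervalIntegral.integral_const_mul, integral_rpow (Or.inl (by norm_num))]
  have h2 : Real.Gamma (5 / 4) = 1 / 4 * Real.Gamma (1 / 4) := by
    rw [← Real.Gamma_add_one (by norm_num)]
    norm_num
  rw [h2, show (-(3 / 4) : ℝ) + 1 = 1 / 4 by norm_num, Real.one_rpow, Real.zero_rpow (by norm_num)]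
  have h3 : Real.Gamma (1 / 4) ≠ 0 := (Real.Gamma_pos_of_pos (by norm_num)).ne'
  field_simp
  norm_num

lemma coef_lim : Tendsto (fun T : ℝ => (∑ n ∈ Icc 1 ⌊T⌋₊, dv (1 / 2) n ^ 2 *
      (n:ℝ) ^ (-(2 * (1 / 2 + 0 / Real.log T)))) / Real.log T ^ (((1:ℝ) / 2) ^ 2)) atTop (𝓝 A0) := by
  have h := Pool.Agent.R313.FM.coef_gen (κ := 1 / 2) (δ := 0) (by norm_num) (fun T => ⌊T⌋₊)
    (by filter_upwards [eventually_ge_atTop 0] with T hT using Nat.floor_le hT) (by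
      intro η hη
      filter_upwards [eventually_gt_atTop 1] with T hT n hn
      have h1 : T < n := (Nat.floor_lt (by linarith)).1 hn
      have h2 : 0 < Real.log T := Real.log_pos hT
      have h3 : Real.log T ≤ Real.log n := Real.log_le_log (by linarith) h1.le
      nlinarith)
  rw [gI_half, mul_one_div] at h
  exact h

theorem coefS {ε : ℝ} (hε : 0 < ε) : ∃ v0 : ℝ, 0 < v0 ∧ ∀ v : ℝ, 0 ≤ v → ∀ N : ℕ,
    ∑ n ∈ Icc 1 N, gv v n ^ 2 * (n : ℝ) ^ (-(2 * (1 / 2 : ℝ))) + 1 ≤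
      (A0 + ε) * (v + v0) ^ (1 / 4 : ℝ) := by
  have h1 := coef_lim.eventually_lt_const (show A0 < A0 + ε / 2 by linarith)
  have h2 := Real.tendsto_exp_atTop.eventually h1
  have h3 : ∀ᶠ w : ℝ in atTop, 1 ≤ ε / 2 * w ^ (1 / 4 : ℝ) := by
    have h := (tendsto_rpow_atTop (show (0:ℝ) < 1 / 4 by norm_num)).eventually_ge_atTop (2 / ε)
    filter_upwards [h] with w hw
    calc 1 = ε / 2 * (2 / ε) := by field_simp
      _ ≤ _ := mul_le_mul_of_nonneg_left hw (by positivity)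
  obtain ⟨w0, hw0⟩ := eventually_atTop.1 (h2.and h3)
  refine ⟨max w0 1, by positivity, fun v hv N => ?_⟩
  set w := v + max w0 1 with hw
  have hw1 : w0 ≤ w := by rw [hw]; linarith [le_max_left w0 1]
  have hw2 : 1 ≤ w := by rw [hw]; linarith [le_max_right w0 1]
  obtain ⟨h4, h5⟩ := hw0 w hw1
  rw [Real.log_exp, show ((1:ℝ) / 2) ^ 2 = 1 / 4 by norm_num, div_lt_iff₀ (by positivity)] at h4
  have h6 : ∑ n ∈ Icc 1 N, gv v n ^ 2 * (n : ℝ) ^ (-(2 * (1 / 2 : ℝ))) ≤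
      ∑ n ∈ Icc 1 ⌊Real.exp w⌋₊, dv (1 / 2) n ^ 2 * (n:ℝ) ^ (-(2 * (1 / 2 + 0 / w))) := by
    have h7 : ∀ n ∈ Icc 1 N, n ∉ (Icc 1 N).filter (fun n : ℕ => Real.log n ≤ v) →
        gv v n ^ 2 * (n : ℝ) ^ (-(2 * (1 / 2 : ℝ))) = 0 := by
      intro n hn hn'
      rw [mem_filter, not_and] at hn'
      unfold gv
      rw [if_neg (hn' hn)]
      simp
    rw [← sum_subset (filter_subset _ _) h7]
    have h8 : ∀ n ∈ (Icc 1 N).filter (fun n : ℕ => Real.log n ≤ v),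
        gv v n ^ 2 * (n : ℝ) ^ (-(2 * (1 / 2 : ℝ))) =
          dv (1 / 2) n ^ 2 * (n:ℝ) ^ (-(2 * (1 / 2 + 0 / w))) := by
      intro n hn
      rw [mem_filter] at hn
      unfold gv dh
      rw [if_pos hn.2, zero_div, add_zero]
    rw [sum_congr rfl h8]
    refine sum_le_sum_of_subset_of_nonneg ?_ fun n _ _ => by positivity
    intro n hn
    rw [mem_filter, mem_Icc] at hn
    rw [mem_Icc]
    refine ⟨hn.1.1, Nat.le_floor ?_⟩
    have hn0 : (0:ℝ) < n := by exact_mod_cast hn.1.1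
    rw [← Real.log_le_iff_le_exp hn0]
    have : v ≤ w := by rw [hw]; linarith [le_max_right w0 1]
    linarith [hn.2]
  have h9 : (A0 + ε) * w ^ (1 / 4 : ℝ) = (A0 + ε / 2) * w ^ (1 / 4 : ℝ) + ε / 2 * w ^ (1 / 4 : ℝ) := by
    ring
  rw [h9]
  linarith

end

end Pool.Agent.L7h48.FU
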