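import Pool.Agent.L7h48.FU.Loc

set_option autoImplicit false

/-!
All intervals of length at least `T^θ` inside `[0, T]`.
-/

namespace Pool.Agent.L7h48.FU

open Finset Filter Topology MeasureTheory Complex

noncomputable section

/-- intervals of any length inside `[X, 2X]` -/
lemma short_bound {θ' C : ℝ} (hθ : θ' ≤ 1) (hC : 0 ≤ C) (h : ∀ᶠ T : ℝ in atTop, ∀ a b : ℝ,
      T / 8 ≤ a → a ≤ b → b ≤ 8 * T → T ^ θ' ≤ b - a →
      ∫ t in a..b, ‖riemannZeta (cl t)‖ ≤ C * (b - a) * Real.log T ^ (1 / 4 : ℝ)) :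
    ∃ X0 : ℝ, 1 ≤ X0 ∧ ∀ X : ℝ, X0 ≤ X → ∀ a b : ℝ, X ≤ a → a ≤ b → b ≤ 2 * X →
      ∫ t in a..b, ‖riemannZeta (cl t)‖ ≤ C * ((b - a) + X ^ θ') * Real.log X ^ (1 / 4 : ℝ) := by
  obtain ⟨X0, hX0⟩ := eventually_atTop.1 h
  refine ⟨max X0 1, le_max_right _ _, fun X hX a b ha hab hb => ?_⟩
  have hX1 : 1 ≤ X := (le_max_right _ _).trans hX
  have hX2 : X0 ≤ X := (le_max_left _ _).trans hX
  have hL : 0 ≤ Real.log X := Real.log_nonneg hX1
  have hP : 0 ≤ Real.log X ^ (1 / 4 : ℝ) := by positivity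
  have hXp : 0 ≤ X ^ θ' := by positivity
  rcases le_total (X ^ θ') (b - a) with h1 | h1
  · refine (hX0 X hX2 a b (by linarith) hab (by linarith) h1).trans ?_
    gcongr
    linarith
  · have hle : X ^ θ' ≤ X := by
      calc X ^ θ' ≤ X ^ (1:ℝ) := Real.rpow_le_rpow_of_exponent_le hX1 hθ
        _ = X := Real.rpow_one X
    have h2 := hX0 X hX2 a (a + X ^ θ') (by linarith) (by linarith) (by linarith) (by linarith)
    rw [show a + X ^ θ' - a = X ^ θ' by ring] at h2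
    have h3 : ∫ t in a..b, ‖riemannZeta (cl t)‖ ≤ ∫ t in a..(a + X ^ θ'), ‖riemannZeta (cl t)‖ :=
      intervalIntegral.integral_mono_interval le_rfl hab (by linarith)
        (Eventually.of_forall fun _ => norm_nonneg _) (zeta_cl_cont.intervalIntegrable _ _)
    refine h3.trans (h2.trans ?_)
    gcongr
    linarith

/-- dyadic induction -/
lemma dyadic {θ' C X0 T : ℝ} (hC : 0 ≤ C) (hθ0 : 0 ≤ θ') (hX0 : 1 ≤ X0)
    (h : ∀ X : ℝ, X0 ≤ X → ∀ a b : ℝ, X ≤ a → a ≤ b → b ≤ 2 * X →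
      ∫ t in a..b, ‖riemannZeta (cl t)‖ ≤ C * ((b - a) + X ^ θ') * Real.log X ^ (1 / 4 : ℝ))
    (hT : 1 ≤ T) (n : ℕ) : ∀ a b : ℝ, 0 ≤ a → a ≤ b → b ≤ T → b ≤ 2 ^ n * X0 →
      ∫ t in a..b, ‖riemannZeta (cl t)‖ ≤ C * (b - a) * Real.log T ^ (1 / 4 : ℝ) +
        n * (C * T ^ θ' * Real.log T ^ (1 / 4 : ℝ)) + ∫ t in (0:ℝ)..X0, ‖riemannZeta (cl t)‖ := by
  have hL : 0 ≤ Real.log T := Real.log_nonneg hT
  have hP : 0 ≤ Real.log T ^ (1 / 4 : ℝ) := by positivity
  have hTp : 0 ≤ T ^ θ' := by positivity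
  have hZ : 0 ≤ ∫ t in (0:ℝ)..X0, ‖riemannZeta (cl t)‖ :=
    intervalIntegral.integral_nonneg (by linarith) fun _ _ => norm_nonneg _
  have hii : ∀ a b : ℝ, IntervalIntegrable (fun t : ℝ => ‖riemannZeta (cl t)‖) volume a b :=
    fun a b => zeta_cl_cont.intervalIntegrable _ _
  induction n with
  | zero =>
    intro a b ha hab _ hb
    rw [pow_zero, one_mul] at hb
    have h3 : ∫ t in a..b, ‖riemannZeta (cl t)‖ ≤ ∫ t in (0:ℝ)..X0, ‖riemannZeta (cl t)‖ :=
      intervalIntegral.integral_mono_interval ha hab hb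
        (Eventually.of_forall fun _ => norm_nonneg _) (hii _ _)
    have h4 : 0 ≤ C * (b - a) * Real.log T ^ (1 / 4 : ℝ) := by
      have : 0 ≤ b - a := by linarith
      positivity
    push_cast
    linarith
  | succ n ih =>
    intro a b ha hab hbT hb
    rcases le_or_gt b (2 ^ n * X0) with h1 | h1
    · refine (ih a b ha hab hbT h1).trans ?_
      have : 0 ≤ C * T ^ θ' * Real.log T ^ (1 / 4 : ℝ) := by positivity
      push_cast
      linarith
    · set X := 2 ^ n * X0 with hX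
      have hX1 : X0 ≤ X := by
        rw [hX]
        have : (1:ℝ) ≤ 2 ^ n := one_le_pow₀ (by norm_num)
        nlinarith
      have hX2 : 1 ≤ X := hX0.trans hX1
      have hXT : X ≤ T := by linarith
      have hlog : Real.log X ^ (1 / 4 : ℝ) ≤ Real.log T ^ (1 / 4 : ℝ) :=
        Real.rpow_le_rpow (Real.log_nonneg hX2) (Real.log_le_log (by linarith) hXT) (by norm_num)
      have hXp : X ^ θ' ≤ T ^ θ' := Real.rpow_le_rpow (by linarith) hXT hθ0
      have hb2 : b ≤ 2 * X := by rw [hX]; rw [pow_succ] at hb; linarith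
      have up : ∀ m : ℝ, X ≤ m → m ≤ b → ∫ t in m..b, ‖riemannZeta (cl t)‖ ≤
          C * (b - m) * Real.log T ^ (1 / 4 : ℝ) + C * T ^ θ' * Real.log T ^ (1 / 4 : ℝ) := by
        intro m hm1 hm2
        refine (h X hX1 m b hm1 hm2 hb2).trans ?_
        have hbm : 0 ≤ b - m := by linarith
        have hlX : 0 ≤ Real.log X := Real.log_nonneg hX2
        calc C * ((b - m) + X ^ θ') * Real.log X ^ (1 / 4 : ℝ) ≤
            C * ((b - m) + T ^ θ') * Real.log T ^ (1 / 4 : ℝ) := by gcongr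
          _ = _ := by ring
      rcases le_total X a with h2 | h2
      · have h3 := up a h2 hab
        have : 0 ≤ (n:ℝ) * (C * T ^ θ' * Real.log T ^ (1 / 4 : ℝ)) := by positivity
        push_cast
        linarith
      · have h3 := up X le_rfl h1.le
        have h4 := ih a X ha h2 hXT le_rfl
        have h5 := intervalIntegral.integral_add_adjacent_intervals (hii a X) (hii X b)
        rw [← h5]
        have h6 : C * (b - a) * Real.log T ^ (1 / 4 : ℝ) = C * (X - a) * Real.log T ^ (1 / 4 : ℝ) +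
            C * (b - X) * Real.log T ^ (1 / 4 : ℝ) := by ring
        push_cast
        linarith

lemma CC_cont {θ : ℝ} (h : 1 / 2 < θ) : ContinuousAt CC θ := by
  unfold CC
  refine ContinuousAt.div ?_ (by fun_prop) (by linarith)
  refine ContinuousAt.mul continuousAt_const (ContinuousAt.add ?_ ?_)
  · exact ContinuousAt.rpow_const continuousAt_id (Or.inr (by norm_num))
  · exact ContinuousAt.rpow_const (by fun_prop) (Or.inr (by norm_num))

/-- the first moment on all intervals of length at least `T^θ` -/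
theorem upper {θ C : ℝ} (h1 : 1 / 2 < θ) (h2 : θ ≤ 1) (hC : A0 * CC θ < C) :
    ∀ᶠ T : ℝ in atTop, ∀ U H : ℝ, 0 ≤ U → U + H ≤ T → T ^ θ ≤ H →
      ∫ t in U..(U + H), ‖riemannZeta (cl t)‖ ≤ C * (H * Real.log T ^ (1 / 4 : ℝ)) := by
  have hA := A0_pos
  have hCC : 0 ≤ CC θ := by
    unfold CC
    have h3 := BB_nonneg
    have h4 : 0 ≤ 1 - θ := by linarith
    have h5 : 0 < 2 * θ - 1 := by linarith
    have h6 : 0 < θ := by linarith
    positivity
  obtain ⟨C', hC1, hC2⟩ := exists_between hC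
  have hC0 : 0 < C' := lt_of_le_of_lt (by positivity) hC1
  have hev : ∀ᶠ x in 𝓝[<] θ, A0 * CC x < C' := by
    have hc : ContinuousAt (fun x => A0 * CC x) θ := continuousAt_const.mul (CC_cont h1)
    exact (hc.eventually (gt_mem_nhds hC1)).filter_mono nhdsWithin_le_nhds
  obtain ⟨θ1, hθ1, hθ2⟩ := (hev.and (Ioo_mem_nhdsLT h1)).exists
  set θ2 := (θ1 + θ) / 2 with hθ
  have a1 : θ1 < θ2 := by rw [hθ]; linarith [hθ2.2]
  have a2 : θ2 < θ := by rw [hθ]; linarith [hθ2.2]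
  obtain ⟨X0, hX0, hsh⟩ := short_bound (θ' := θ2) (by linarith) hC0.le
    (local_bound hθ2.1 a1 (by linarith) hθ1)
  set Z := ∫ t in (0:ℝ)..X0, ‖riemannZeta (cl t)‖ with hZ
  have hr : 0 < θ - θ2 := by linarith
  have hgap : 0 < C - C' := by linarith
  have hb := (isLittleO_log_rpow_atTop hr).bound (show (0:ℝ) < (C - C') / (4 * C') by positivity)
  filter_upwards [hb, (tendsto_rpow_atTop hr).eventually_ge_atTop ((2 * (C' + |Z|)) / (C - C')),
    Real.tendsto_log_atTop.eventually_ge_atTop 1, eventually_ge_atTop 1]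
    with T hb hT2 hL hT U H hU hUH hH
  have hT0 : 0 < T := by linarith
  rw [Real.norm_of_nonneg (by linarith), Real.norm_of_nonneg (by positivity)] at hb
  set L := Real.log T with hLd
  have hP : 1 ≤ L ^ (1 / 4 : ℝ) := Real.one_le_rpow hL (by norm_num)
  have hTθ : 0 < T ^ θ := by positivity
  have hH0 : 0 < H := by linarith
  set n := ⌈2 * L⌉₊ with hn
  have hn1 : 2 * L ≤ n := Nat.le_ceil _
  have hn2 : (n:ℝ) ≤ 2 * L + 1 := (Nat.ceil_lt_add_one (by linarith)).le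
  have hTn : T ≤ 2 ^ n * X0 := by
    have e1 : T ≤ 2 ^ n := by
      have e2 : Real.exp L ≤ Real.exp (n * Real.log 2) := by
        apply Real.exp_le_exp.2
        have h7 : (1:ℝ) / 2 ≤ Real.log 2 := by linarith [Real.log_two_gt_d9]
        nlinarith
      rw [hLd, Real.exp_log hT0, Real.exp_nat_mul, Real.exp_log (by norm_num)] at e2
      exact e2
    have : (0:ℝ) < 2 ^ n := by positivity
    nlinarith
  have key := dyadic hC0.le (by linarith : 0 ≤ θ2) hX0 hsh hT n U (U + H) hU (by linarith) hUH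
    (hUH.trans hTn)
  rw [show U + H - U = H by ring, ← hZ] at key
  refine key.trans ?_
  have hTθ2 : 1 ≤ T ^ θ2 := Real.one_le_rpow hT (by linarith)
  have e : T ^ θ = T ^ θ2 * T ^ (θ - θ2) := by
    rw [← Real.rpow_add hT0]; congr 1; ring
  have h8 : n * C' + |Z| ≤ (C - C') * T ^ (θ - θ2) := by
    rw [div_le_iff₀ hgap] at hT2
    have h9 : 2 * C' * L ≤ (C - C') / 2 * T ^ (θ - θ2) := by
      have := mul_le_mul_of_nonneg_left hb (show 0 ≤ 2 * C' by linarith)
      calc 2 * C' * L ≤ 2 * C' * ((C - C') / (4 * C') * T ^ (θ - θ2)) := this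
        _ = _ := by field_simp; ring
    have h10 : (n:ℝ) * C' ≤ (2 * L + 1) * C' := mul_le_mul_of_nonneg_right hn2 hC0.le
    linarith
  have h11 : n * (C' * T ^ θ2 * L ^ (1 / 4 : ℝ)) + Z ≤ (C - C') * H * L ^ (1 / 4 : ℝ) := by
    have h12 : Z ≤ |Z| * T ^ θ2 * L ^ (1 / 4 : ℝ) := by
      have h13 : |Z| ≤ |Z| * T ^ θ2 := le_mul_of_one_le_right (abs_nonneg _) hTθ2
      have h14 : |Z| * T ^ θ2 ≤ |Z| * T ^ θ2 * L ^ (1 / 4 : ℝ) :=
        le_mul_of_one_le_right (by positivity) hP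
      linarith [le_abs_self Z]
    calc n * (C' * T ^ θ2 * L ^ (1 / 4 : ℝ)) + Z ≤
        (n * C' + |Z|) * T ^ θ2 * L ^ (1 / 4 : ℝ) := by linarith
      _ ≤ ((C - C') * T ^ (θ - θ2)) * T ^ θ2 * L ^ (1 / 4 : ℝ) := by gcongr
      _ = (C - C') * T ^ θ * L ^ (1 / 4 : ℝ) := by rw [e]; ring
      _ ≤ _ := by gcongr
  linarith

end

end Pool.Agent.L7h48.FU
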