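import Pool.Agent.L7h48.FU.Coe

set_option autoImplicit false

/-!
The local theorem: intervals `[a, b]` inside `[T/8, 8T]` of length at least `T^θ'`.
-/

namespace Pool.Agent.L7h48.FU

open Finset Filter Topology MeasureTheory Complex
open Pool.Agent.H448R2.GC (cu cu_nonneg cu_le_one cu_cont cu_zero cs XX)

noncomputable section

/-- the constant -/
def CC (θ : ℝ) : ℝ := 2 * BB * (θ ^ (5 / 4 : ℝ) + (1 - θ) ^ (5 / 4 : ℝ)) / (2 * θ - 1)

lemma zeta_cl_cont : Continuous (fun t : ℝ => ‖riemannZeta (cl t)‖) := by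
  refine Continuous.norm ?_
  rw [continuous_iff_continuousAt]
  intro t
  have h1 : cl t ≠ 1 := by
    intro h
    have := congrArg Complex.re h
    simp [cl] at this
  have h2 : Continuous cl := by unfold cl; fun_prop
  exact ContinuousAt.comp (g := riemannZeta) (differentiableAt_riemannZeta h1).continuousAt
    h2.continuousAt

/-- the integrated inequality -/
theorem int_bound {N k : ℕ} {c H D e M S : ℝ} {a b : ℝ} (hc : 0 < c) (hH : 0 < H) (hab : a ≤ b)
    (hp : ∀ t ∈ Set.Icc a b, ‖riemannZeta (cl t)‖ ≤ 2 * ‖WW N (k + 1) c H D t‖ +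
      1 / H * (∫ v in (D - 4)..(D + 4), ‖gs N (k + 1) c v t‖) +
      1 / H * (∫ v in (D + H - 4)..(D + H + 4), ‖gs N (k + 1) c v t‖) + e)
    (hW : ∫ t in a..b, ‖WW N (k + 1) c H D t‖ ≤ (b - a) * M)
    (hg : ∀ v, ∫ t in a..b, ‖gs N (k + 1) c v t‖ ≤ (b - a) * S) :
    ∫ t in a..b, ‖riemannZeta (cl t)‖ ≤ (b - a) * (2 * M + 16 * S / H + e) := by
  have hgj := (gs_jc N k hc).norm
  have hgb : ∀ s t : ℝ, |‖gs N (k + 1) c s t‖| ≤ N :=
    fun s t => by rw [abs_of_nonneg (norm_nonneg _)]; exact gs_bd N _ hc _ _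
  have hWc : Continuous (fun t => ‖WW N (k + 1) c H D t‖) :=
    ((WW_cont N (k + 1) hc H).comp (Continuous.prodMk_right D)).norm
  have q : ∀ x : ℝ, Continuous (fun t => ∫ v in (x - 4)..(x + 4), ‖gs N (k + 1) c v t‖) := fun x =>
    par_cont (f := fun v t => ‖gs N (k + 1) c v t‖) hgj _ _
  have r : ∀ x : ℝ, ∫ t in a..b, (∫ v in (x - 4)..(x + 4), ‖gs N (k + 1) c v t‖) ≤
      8 * ((b - a) * S) := by
    intro x
    rw [fub (f := fun v t => ‖gs N (k + 1) c v t‖) hgj.measurable hgb hab (by linarith)]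
    have hb := intervalIntegral.norm_integral_le_of_norm_le_const (a := x - 4) (b := x + 4)
      (C := (b - a) * S) (f := fun v => ∫ t in a..b, ‖gs N (k + 1) c v t‖) (fun v _ => by
        rw [Real.norm_of_nonneg (intervalIntegral.integral_nonneg hab fun _ _ => norm_nonneg _)]
        exact hg v)
    rw [show x + 4 - (x - 4) = 8 by ring, abs_of_pos (by norm_num)] at hb
    linarith [(Real.le_norm_self _).trans hb]
  have h1 : ∫ t in a..b, ‖riemannZeta (cl t)‖ ≤ ∫ t in a..b, (2 * ‖WW N (k + 1) c H D t‖ +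
      1 / H * (∫ v in (D - 4)..(D + 4), ‖gs N (k + 1) c v t‖) +
      1 / H * (∫ v in (D + H - 4)..(D + H + 4), ‖gs N (k + 1) c v t‖) + e) := by
    refine intervalIntegral.integral_mono_on hab (zeta_cl_cont.intervalIntegrable _ _) ?_ hp
    refine Continuous.intervalIntegrable ?_ _ _
    exact (((continuous_const.mul hWc).add (continuous_const.mul (q D))).add
      (continuous_const.mul (q (D + H)))).add continuous_const
  have i1 : IntervalIntegrable (fun t => 2 * ‖WW N (k + 1) c H D t‖) volume a b :=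
    (continuous_const.mul hWc).intervalIntegrable _ _
  have i2 : IntervalIntegrable (fun t => 1 / H * (∫ v in (D - 4)..(D + 4), ‖gs N (k + 1) c v t‖))
      volume a b := (continuous_const.mul (q D)).intervalIntegrable _ _
  have i3 : IntervalIntegrable (fun t => 1 / H * (∫ v in (D + H - 4)..(D + H + 4),
      ‖gs N (k + 1) c v t‖)) volume a b := (continuous_const.mul (q (D + H))).intervalIntegrable _ _
  rw [intervalIntegral.integral_add ((i1.add i2).add i3) intervalIntegrable_const,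
    intervalIntegral.integral_add (i1.add i2) i3, intervalIntegral.integral_add i1 i2,
    intervalIntegral.integral_const_mul, intervalIntegral.integral_const_mul,
    intervalIntegral.integral_const_mul, intervalIntegral.integral_const, smul_eq_mul] at h1
  have h2 := mul_le_mul_of_nonneg_left (r D) (show 0 ≤ 1 / H by positivity)
  have h3 := mul_le_mul_of_nonneg_left (r (D + H)) (show 0 ≤ 1 / H by positivity)
  have h4 : (b - a) * (2 * M + 16 * S / H + e) = 2 * ((b - a) * M) + 1 / H * (8 * ((b - a) * S)) +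
      1 / H * (8 * ((b - a) * S)) + (b - a) * e := by
    field_simp
    ring
  rw [h4]
  linarith

/-- the mean of the window average -/
theorem WW_mean {N : ℕ} {K : ℕ} {c H D X Y a b α v0 : ℝ} (hc : 0 < c) (hH : 0 < H) (hD : 0 ≤ D)
    (hN : Real.exp (D + K * c + H) ≤ N) (hab : a ≤ b)
    (h6 : 6 * (N:ℝ) * (1 + Real.log N) ≤ b - a) (hα : 0 ≤ α) (hv0 : 0 < v0)
    (hM : ∀ v : ℝ, 0 ≤ v → ∑ n ∈ Icc 1 N, gv v n ^ 2 * (n : ℝ) ^ (-(2 * (1 / 2 : ℝ))) + 1 ≤
      α * (v + v0) ^ (1 / 4 : ℝ)) (hX : D + K * c + H + 2 * v0 ≤ X) (hY : D + K * c + 2 * v0 ≤ Y) :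
    ∫ t in a..b, ‖WW N K c H D t‖ ≤
      (b - a) * (α * BB / H * (X ^ (5 / 4 : ℝ) + Y ^ (5 / 4 : ℝ))) := by
  refine WM_le hab N hc hH (A := D) K D (fun D' h1 h2 => ?_) D le_rfl le_rfl
  have hba : 0 ≤ b - a := by linarith
  have hBB := BB_nonneg
  have e1 : Real.exp (D' + H) ≤ N := le_trans (Real.exp_le_exp.2 (by linarith)) hN
  have e2 : Real.exp D' ≤ N := le_trans (Real.exp_le_exp.2 (by linarith)) hN
  have m1 := JJ_mean (x := D' + H) (by linarith) e1 hab h6 hα hv0 hM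
  have m2 := JJ_mean (x := D') (by linarith) e2 hab h6 hα hv0 hM
  have hJc : ∀ x : ℝ, Continuous (fun t => ‖JJ N x t‖) := by
    intro x
    unfold JJ
    exact (continuous_finsetSum _ fun n _ => continuous_const.mul (mo_cont n)).norm
  have h3 : ∫ t in a..b, ‖WW N 0 c H D' t‖ ≤
      ∫ t in a..b, (1 / H * ‖JJ N (D' + H) t‖ + 1 / H * ‖JJ N D' t‖) := by
    refine intervalIntegral.integral_mono_on hab ?_ ?_ fun t _ => ?_
    · exact (((WW_cont N 0 hc H).comp (Continuous.prodMk_right D')).norm).intervalIntegrable _ _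
    · exact ((continuous_const.mul (hJc _)).add (continuous_const.mul (hJc _))).intervalIntegrable _ _
    · rw [WW_zero N hc, norm_mul, Complex.norm_real, Real.norm_of_nonneg (by positivity), ← mul_add]
      exact mul_le_mul_of_nonneg_left (norm_sub_le _ _) (by positivity)
  have i1 : ∀ x, IntervalIntegrable (fun t => 1 / H * ‖JJ N x t‖) volume a b := fun x =>
    (continuous_const.mul (hJc x)).intervalIntegrable _ _
  rw [intervalIntegral.integral_add (i1 _) (i1 _), intervalIntegral.integral_const_mul,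
    intervalIntegral.integral_const_mul] at h3
  have p1 : (D' + H + 2 * v0) ^ (5 / 4 : ℝ) ≤ X ^ (5 / 4 : ℝ) :=
    Real.rpow_le_rpow (by linarith) (by linarith) (by norm_num)
  have p2 : (D' + 2 * v0) ^ (5 / 4 : ℝ) ≤ Y ^ (5 / 4 : ℝ) :=
    Real.rpow_le_rpow (by linarith) (by linarith) (by norm_num)
  have n1 : ∫ t in a..b, ‖JJ N (D' + H) t‖ ≤ (b - a) * (α * (BB * X ^ (5 / 4 : ℝ))) := by
    refine m1.trans ?_
    gcongr
  have n2 : ∫ t in a..b, ‖JJ N D' t‖ ≤ (b - a) * (α * (BB * Y ^ (5 / 4 : ℝ))) := by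
    refine m2.trans ?_
    gcongr
  have h4 := mul_le_mul_of_nonneg_left n1 (show 0 ≤ 1 / H by positivity)
  have h5 := mul_le_mul_of_nonneg_left n2 (show 0 ≤ 1 / H by positivity)
  have h7 : (b - a) * (α * BB / H * (X ^ (5 / 4 : ℝ) + Y ^ (5 / 4 : ℝ))) =
      1 / H * ((b - a) * (α * (BB * X ^ (5 / 4 : ℝ)))) +
      1 / H * ((b - a) * (α * (BB * Y ^ (5 / 4 : ℝ)))) := by
    field_simp
  rw [h7]
  linarith

lemma ev_len {θ θ' : ℝ} (h0 : 0 < θ) (h1 : θ ≤ 1) (h2 : θ < θ') :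
    ∀ᶠ T : ℝ in atTop, 6 * ((⌊T ^ θ⌋₊ : ℕ) : ℝ) * (1 + Real.log ((⌊T ^ θ⌋₊ : ℕ) : ℝ)) ≤ T ^ θ' ∧
      1 ≤ ⌊T ^ θ⌋₊ ∧ Real.log ((⌊T ^ θ⌋₊ : ℕ) : ℝ) ≤ Real.log T := by
  have hr : 0 < θ' - θ := by linarith
  have hb := (isLittleO_log_rpow_atTop hr).bound (show (0:ℝ) < 1 / 12 by norm_num)
  filter_upwards [hb, (tendsto_rpow_atTop hr).eventually_ge_atTop 12, eventually_ge_atTop 1]
    with T hb h12 hT
  have hT0 : 0 < T := by linarith
  have hL : 0 ≤ Real.log T := Real.log_nonneg hT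
  rw [Real.norm_of_nonneg hL, Real.norm_of_nonneg (by positivity)] at hb
  have hN1 : 1 ≤ ⌊T ^ θ⌋₊ := by
    apply Nat.le_floor
    push_cast
    exact Real.one_le_rpow hT h0.le
  have hN : ((⌊T ^ θ⌋₊ : ℕ) : ℝ) ≤ T ^ θ := Nat.floor_le (by positivity)
  have hN1' : (1:ℝ) ≤ ((⌊T ^ θ⌋₊ : ℕ) : ℝ) := by exact_mod_cast hN1
  have hlog : Real.log ((⌊T ^ θ⌋₊ : ℕ) : ℝ) ≤ Real.log T := by
    refine Real.log_le_log (by linarith) (hN.trans ?_)
    calc T ^ θ ≤ T ^ (1:ℝ) := Real.rpow_le_rpow_of_exponent_le hT h1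
      _ = T := Real.rpow_one T
  refine ⟨?_, hN1, hlog⟩
  have e : T ^ θ' = T ^ θ * T ^ (θ' - θ) := by
    rw [← Real.rpow_add hT0]; congr 1; ring
  rw [e]
  have h5 : 6 * (1 + Real.log ((⌊T ^ θ⌋₊ : ℕ) : ℝ)) ≤ T ^ (θ' - θ) := by linarith
  calc 6 * ((⌊T ^ θ⌋₊ : ℕ) : ℝ) * (1 + Real.log ((⌊T ^ θ⌋₊ : ℕ) : ℝ)) =
      ((⌊T ^ θ⌋₊ : ℕ) : ℝ) * (6 * (1 + Real.log ((⌊T ^ θ⌋₊ : ℕ) : ℝ))) := by ring
    _ ≤ T ^ θ * T ^ (θ' - θ) := mul_le_mul hN h5 (by
        have := Real.log_nonneg hN1'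
        positivity) (by positivity)

lemma ev_exp {θ η : ℝ} (hη : 0 < η) (h : 3 / 2 * η ≤ θ) :
    ∀ᶠ T : ℝ in atTop, ∀ x : ℝ, x ≤ (θ - 3 / 2 * η) * Real.log T + 4 →
      Real.exp x ≤ ((⌊T ^ θ⌋₊ : ℕ) : ℝ) := by
  filter_upwards [(tendsto_rpow_atTop (show 0 < 3 / 2 * η by positivity)).eventually_ge_atTop
    (Real.exp 4 + 1), eventually_ge_atTop 1] with T h1 hT x hx
  have hT0 : 0 < T := by linarith
  have e1 : Real.exp x ≤ T ^ (θ - 3 / 2 * η) * Real.exp 4 := by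
    rw [Real.rpow_def_of_pos hT0, ← Real.exp_add]
    exact Real.exp_le_exp.2 (by linarith)
  have e2 : T ^ θ ≤ ((⌊T ^ θ⌋₊ : ℕ) : ℝ) + 1 := (Nat.lt_floor_add_one _).le
  have e3 : T ^ θ = T ^ (θ - 3 / 2 * η) * T ^ (3 / 2 * η) := by
    rw [← Real.rpow_add hT0]; congr 1; ring
  have e4 : 1 ≤ T ^ (θ - 3 / 2 * η) := Real.one_le_rpow hT (by linarith)
  have e5 : T ^ (θ - 3 / 2 * η) * (Real.exp 4 + 1) ≤ T ^ θ := by
    rw [e3]
    exact mul_le_mul_of_nonneg_left h1 (by positivity)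
  linarith

/-- the local theorem -/
theorem local_bound {θ θ' : ℝ} (h1 : 1 / 2 < θ) (h2 : θ < θ') (h3 : θ' ≤ 1) {C : ℝ}
    (hC : A0 * CC θ < C) :
    ∀ᶠ T : ℝ in atTop, ∀ a b : ℝ, T / 8 ≤ a → a ≤ b → b ≤ 8 * T → T ^ θ' ≤ b - a →
      ∫ t in a..b, ‖riemannZeta (cl t)‖ ≤ C * (b - a) * Real.log T ^ (1 / 4 : ℝ) := by
  have hA := A0_pos
  have hBB := BB_nonneg
  set Φ : ℝ → ℝ := fun η => 2 * (A0 + η) * BB * (θ ^ (5 / 4 : ℝ) +
    (1 - θ + 3 * η) ^ (5 / 4 : ℝ)) / (2 * θ - 1 - 4 * η) + η with hΦ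
  have hcont : ContinuousAt Φ 0 := by
    rw [hΦ]
    refine ContinuousAt.add (ContinuousAt.div ?_ (by fun_prop) ?_) continuousAt_id
    · refine ContinuousAt.mul (by fun_prop) (ContinuousAt.add continuousAt_const ?_)
      exact ContinuousAt.rpow_const (by fun_prop) (Or.inr (by norm_num))
    · simp only [mul_zero, sub_zero]
      linarith
  have hΦ0 : Φ 0 < C := by
    refine lt_of_eq_of_lt ?_ hC
    simp only [hΦ, CC, mul_zero, add_zero, sub_zero]
    ring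
  have hev : ∀ᶠ η in 𝓝[>] (0:ℝ), Φ η < C :=
    (hcont.eventually (gt_mem_nhds hΦ0)).filter_mono nhdsWithin_le_nhds
  have hm : 0 < min (1 / 100) ((2 * θ - 1) / 8) := lt_min (by norm_num) (by linarith)
  obtain ⟨η, hη1, hη2⟩ := (hev.and (Ioo_mem_nhdsGT hm)).exists
  have hη0 : 0 < η := hη2.1
  have hη3 : η ≤ 1 / 100 := hη2.2.le.trans (min_le_left _ _)
  have hη4 : η ≤ (2 * θ - 1) / 8 := hη2.2.le.trans (min_le_right _ _)
  set κ := 2 * θ - 1 - 4 * η with hκ
  have hκ0 : 0 < κ := by rw [hκ]; linarith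
  obtain ⟨k₀, hk₀⟩ := afe_ext hη0 hη3
  obtain ⟨v0, hv0, hcoef⟩ := coefS hη0
  have hL1 := Real.tendsto_log_atTop.eventually_ge_atTop
    (max 1 (max (4 * v0 / η) ((64 / (κ * η)) ^ 2)))
  have hT5 : ∀ᶠ T : ℝ in atTop, 3 * T ^ (-(1 / 5) : ℝ) ≤ η / 2 := by
    have : Tendsto (fun T : ℝ => 3 * T ^ (-(1 / 5) : ℝ)) atTop (𝓝 (3 * 0)) :=
      (tendsto_rpow_neg_atTop (by norm_num)).const_mul _
    rw [mul_zero] at this
    exact this.eventually_le_const (by positivity)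
  filter_upwards [hk₀ (k₀ + 1) (by omega), ev_len (by linarith) (by linarith) h2,
    ev_exp (θ := θ) hη0 (by linarith), hL1, hT5, eventually_gt_atTop 1]
    with T hafe hlen hexp hL hT5 hT1 a b ha hab hb hab2
  have hT0 : 0 < T := by linarith
  obtain ⟨hlen1, hN1, hlogN⟩ := hlen
  set N := ⌊T ^ θ⌋₊ with hN
  set L := Real.log T with hLd
  have hL1 : 1 ≤ L := (le_max_left _ _).trans hL
  have hL2 : 4 * v0 / η ≤ L := (le_max_left _ _).trans ((le_max_right _ _).trans hL)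
  have hL3 : (64 / (κ * η)) ^ 2 ≤ L := (le_max_right _ _).trans ((le_max_right _ _).trans hL)
  have hL0 : 0 < L := by linarith
  have hvL : 4 * v0 ≤ η * L := by
    rw [div_le_iff₀ hη0] at hL2
    linarith
  set H := κ * L with hH
  set D := (1 - θ + 3 / 2 * η) * L with hD
  set c := η * L / ((k₀ + 1 : ℕ) : ℝ) with hc
  have hH0 : 0 < H := by positivity
  have hD0 : 0 ≤ D := by
    have : 0 ≤ 1 - θ + 3 / 2 * η := by linarith
    positivity
  have hc0 : 0 < c := by positivity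
  have hkc : ((k₀ + 1 : ℕ) : ℝ) * c = η * L := by
    rw [hc]
    field_simp
  have hDH : D + H = (θ - 5 / 2 * η) * L := by rw [hD, hH, hκ]; ring
  have h2DH : 2 * D + H = (1 - η) * L := by rw [hD, hH, hκ]; ring
  have hηL : 0 < η * L := by positivity
  have h6 : 6 * (N:ℝ) * (1 + Real.log N) ≤ b - a := hlen1.trans hab2
  -- the means of the window averages
  have hWm := WW_mean (N := N) (K := k₀ + 1) (c := c) (H := H) (D := D) (X := θ * L)
    (Y := (1 - θ + 3 * η) * L) (α := A0 + η) (v0 := v0) hc0 hH0 hD0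
    (hexp _ (by rw [hkc, show D + η * L + H = (D + H) + η * L by ring, hDH]; linarith))
    hab h6 (by linarith) hv0 (fun v hv => hcoef v hv N)
    (by rw [hkc, show D + η * L + H + 2 * v0 = (D + H) + η * L + 2 * v0 by ring, hDH]; linarith)
    (by rw [hkc, hD]; linarith)
  have hgm := fun v => gs_mean k₀ hc0 hab hN1 h6 v
  have key := int_bound (N := N) (k := k₀) (c := c) (H := H) (D := D)
    (e := 3 * T ^ (-(1 / 5) : ℝ)) (a := a) (b := b) hc0 hH0 hab (fun t ht => by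
      have ht1 : T / 8 ≤ t := ha.trans ht.1
      have ht2 : t ≤ 8 * T := ht.2.trans hb
      obtain ⟨l1, l2⟩ := lt_bd hT0 ht1 ht2
      rw [← hLd] at l1 l2
      have hlam : |lt t - L| ≤ 4 := by rw [abs_le]; constructor <;> linarith
      refine avg_afe hc0 hH0 hlam (norm_XX_cl t) fun v hv => ?_
      have hv1 := hv.1
      have hv2 := hv.2
      rw [hDH] at hv2
      have g1 := hafe t ht1 ht2 v (by linarith) (by
        refine hv2.trans ?_
        refine mul_le_mul_of_nonneg_right ?_ hL0.le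
        linarith)
      rw [cs_ext (k₀ + 1) c v hc0 N (hexp _ (by rw [hkc]; linarith)) t,
        cs_ext (k₀ + 1) c (lt t - v - η * L) hc0 N (hexp _ (by
          rw [hkc]
          have : v ≥ (1 - θ + 3 / 2 * η) * L := hv1
          linarith)) t] at g1
      have e : 2 * D + H + (lt t - L) - v = lt t - v - η * L := by rw [h2DH]; ring
      rw [e]
      exact g1) hWm hgm
  refine key.trans ?_
  have hba : 0 ≤ b - a := by linarith
  have hP : 1 ≤ L ^ (1 / 4 : ℝ) := Real.one_le_rpow hL1 (by norm_num)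
  -- the main term
  have hmain : 2 * ((A0 + η) * BB / H * ((θ * L) ^ (5 / 4 : ℝ) +
      ((1 - θ + 3 * η) * L) ^ (5 / 4 : ℝ))) = (Φ η - η) * L ^ (1 / 4 : ℝ) := by
    rw [Real.mul_rpow (by linarith) hL0.le, Real.mul_rpow (by linarith) hL0.le, hH, hΦ]
    simp only
    rw [← hκ]
    have e1 : L ^ (5 / 4 : ℝ) = L * L ^ (1 / 4 : ℝ) := by
      rw [show (5 / 4 : ℝ) = 1 + 1 / 4 by norm_num, Real.rpow_add hL0, Real.rpow_one]
    rw [e1]
    field_simp
    ring
  -- the error term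
  have herr : 16 * Real.sqrt (2 + Real.log N) / H ≤ η / 2 := by
    have s1 : Real.sqrt (2 + Real.log N) ≤ 2 * Real.sqrt L := by
      have : (2:ℝ) * Real.sqrt L = Real.sqrt (4 * L) := by
        rw [Real.sqrt_mul (by norm_num), show (4:ℝ) = 2 ^ 2 by norm_num, Real.sqrt_sq (by norm_num)]
      rw [this]
      exact Real.sqrt_le_sqrt (by linarith)
    have hsL : 0 < Real.sqrt L := Real.sqrt_pos.2 hL0
    have hsq : Real.sqrt L ^ 2 = L := Real.sq_sqrt hL0.le
    have s2 : 64 / (κ * η) ≤ Real.sqrt L := Real.le_sqrt_of_sq_le hL3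
    rw [div_le_iff₀ hH0, hH, ← hsq]
    rw [div_le_iff₀ (by positivity)] at s2
    have s3 : 64 * Real.sqrt L ≤ Real.sqrt L * (κ * η) * Real.sqrt L :=
      mul_le_mul_of_nonneg_right s2 hsL.le
    have s4 : η / 2 * (κ * Real.sqrt L ^ 2) = Real.sqrt L * (κ * η) * Real.sqrt L / 2 := by ring
    rw [s4]
    linarith
  have hfin : 2 * ((A0 + η) * BB / H * ((θ * L) ^ (5 / 4 : ℝ) +
      ((1 - θ + 3 * η) * L) ^ (5 / 4 : ℝ))) + 16 * Real.sqrt (2 + Real.log N) / H +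
      3 * T ^ (-(1 / 5) : ℝ) ≤ C * L ^ (1 / 4 : ℝ) := by
    rw [hmain]
    have e1 : (Φ η - η) * L ^ (1 / 4 : ℝ) + η * L ^ (1 / 4 : ℝ) ≤ C * L ^ (1 / 4 : ℝ) := by
      rw [← add_mul]
      refine mul_le_mul_of_nonneg_right ?_ (by positivity)
      linarith
    have e2 : η ≤ η * L ^ (1 / 4 : ℝ) := le_mul_of_one_le_right hη0.le hP
    linarith
  calc (b - a) * (2 * ((A0 + η) * BB / H * ((θ * L) ^ (5 / 4 : ℝ) +
      ((1 - θ + 3 * η) * L) ^ (5 / 4 : ℝ))) + 16 * Real.sqrt (2 + Real.log N) / H +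
      3 * T ^ (-(1 / 5) : ℝ)) ≤ (b - a) * (C * L ^ (1 / 4 : ℝ)) :=
        mul_le_mul_of_nonneg_left hfin hba
    _ = _ := by ring

end

end Pool.Agent.L7h48.FU
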