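import Pool.Agent.L7h48.FU.Glo

set_option autoImplicit false

/-!
The constant `B(9/8, 9/8)`.
-/

namespace Pool.Agent.L7h48.FU

open Finset Filter Topology MeasureTheory

noncomputable section

theorem BB_eq : BB = Real.Gamma (9 / 8) ^ 2 / Real.Gamma (9 / 4) := by
  have h := ProbabilityTheory.beta_eq_betaIntegralReal (9 / 8) (9 / 8) (by norm_num) (by norm_num)
  unfold ProbabilityTheory.beta at h
  have e1 : Complex.betaIntegral ((9 / 8 : ℝ) : ℂ) ((9 / 8 : ℝ) : ℂ) = ((BB : ℝ) : ℂ) := by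
    unfold Complex.betaIntegral BB
    rw [← intervalIntegral.integral_ofReal]
    refine intervalIntegral.integral_congr fun x hx => ?_
    rw [Set.uIcc_of_le zero_le_one] at hx
    show (x : ℂ) ^ (((9 / 8 : ℝ) : ℂ) - 1) * (1 - (x : ℂ)) ^ (((9 / 8 : ℝ) : ℂ) - 1) =
      (((x * (1 - x)) ^ (1 / 8 : ℝ) : ℝ) : ℂ)
    have h1 : ((9 / 8 : ℝ) : ℂ) - 1 = ((1 / 8 : ℝ) : ℂ) := by push_cast; norm_num
    have h2 : (1 - (x : ℂ)) = ((1 - x : ℝ) : ℂ) := by push_cast; ring
    rw [h1, h2, ← Complex.ofReal_cpow hx.1, ← Complex.ofReal_cpow (by linarith [hx.2]),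
      ← Complex.ofReal_mul, ← Real.mul_rpow hx.1 (by linarith [hx.2])]
  rw [e1, Complex.ofReal_re] at h
  rw [← h, sq, show (9 / 8 + 9 / 8 : ℝ) = 9 / 4 by norm_num]

/-- the truncated binomial series -/
def PP (x : ℝ) : ℝ := 1 - x / 8 - 7 / 128 * x ^ 2 - 35 / 1024 * x ^ 3 - 805 / 32768 * x ^ 4

lemma PP_pos {x : ℝ} (h0 : 0 ≤ x) (h1 : x ≤ 1) : 0 < PP x := by
  unfold PP
  have h2 : x ^ 2 ≤ 1 := pow_le_one₀ h0 h1
  have h3 : x ^ 3 ≤ 1 := pow_le_one₀ h0 h1
  have h4 : x ^ 4 ≤ 1 := pow_le_one₀ h0 h1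
  linarith

lemma binom_le {x : ℝ} (h0 : 0 ≤ x) (h1 : x ≤ 1) : (1 - x) ^ (1 / 8 : ℝ) ≤ PP x := by
  rcases eq_or_lt_of_le h1 with h | h
  · rw [h, sub_self, Real.zero_rpow (by norm_num)]
    exact (PP_pos zero_le_one le_rfl).le
  · set f : ℝ → ℝ := fun x => Real.log (PP x) - 1 / 8 * Real.log (1 - x) with hf
    have hd : ∀ y ∈ Set.Ico (0:ℝ) 1, HasDerivAt f (805 * 31 / 262144 * y ^ 4 / (PP y * (1 - y))) y := by
      intro y hy
      have hP := PP_pos hy.1 hy.2.le
      have hy1 : 0 < 1 - y := by linarith [hy.2]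
      have d1 : HasDerivAt PP (-1 / 8 - 7 / 64 * y - 105 / 1024 * y ^ 2 - 805 / 8192 * y ^ 3) y := by
        unfold PP
        have h1 := hasDerivAt_id y
        have := ((((hasDerivAt_const y (1:ℝ)).sub (h1.div_const 8)).sub
          ((hasDerivAt_pow 2 y).const_mul (7 / 128))).sub
          ((hasDerivAt_pow 3 y).const_mul (35 / 1024))).sub
          ((hasDerivAt_pow 4 y).const_mul (805 / 32768))
        refine this.congr_deriv ?_
        norm_num
        ring
      have d2 := d1.log hP.ne'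
      have d3 : HasDerivAt (fun y : ℝ => Real.log (1 - y)) (-1 / (1 - y)) y := by
        have h1 : HasDerivAt (fun y : ℝ => 1 - y) (-1) y := by
          simpa using (hasDerivAt_id y).const_sub 1
        exact h1.log hy1.ne'
      have d4 := d2.sub (d3.const_mul (1 / 8))
      refine d4.congr_deriv ?_
      have hne : PP y ≠ 0 := hP.ne'
      field_simp
      unfold PP
      ring
    have hmono : MonotoneOn f (Set.Ico 0 1) := by
      refine monotoneOn_of_deriv_nonneg (convex_Ico 0 1)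
        (fun u hu => (hd u hu).continuousAt.continuousWithinAt)
        (fun u hu => (hd u (interior_subset hu)).differentiableAt.differentiableWithinAt) ?_
      intro u hu
      have hu' := interior_subset hu
      rw [(hd u hu').deriv]
      have hP := PP_pos hu'.1 hu'.2.le
      have hy1 : 0 < 1 - u := by linarith [hu'.2]
      have := hu'.1
      positivity
    have h2 := hmono (show (0:ℝ) ∈ Set.Ico 0 1 from ⟨le_rfl, zero_lt_one⟩)
      (show x ∈ Set.Ico 0 1 from ⟨h0, h⟩) h0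
    have h3 : f 0 = 0 := by
      simp [hf, PP]
    rw [h3] at h2
    have hx : 0 < 1 - x := by linarith
    rw [← Real.log_le_log_iff (Real.rpow_pos_of_pos hx _) (PP_pos h0 h1), Real.log_rpow hx]
    simp only [hf] at h2
    linarith

lemma two_le : (1189207 / 1000000 : ℝ) ≤ (4:ℝ) ^ (1 / 8 : ℝ) := by
  have h : ((1189207 / 1000000 : ℝ)) ^ (8:ℕ) ≤ 4 := by norm_num
  have h2 : (((1189207 / 1000000 : ℝ)) ^ (8:ℕ)) ^ (1 / 8 : ℝ) ≤ (4:ℝ) ^ (1 / 8 : ℝ) :=
    Real.rpow_le_rpow (by positivity) h (by norm_num)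
  rw [← Real.rpow_natCast, ← Real.rpow_mul (by norm_num)] at h2
  norm_num at h2 ⊢
  exact h2

lemma int_PP : ∫ u in (0:ℝ)..1, PP ((1 - 2 * u) ^ 2) =
    1 - 1 / 24 - 7 / 640 - 5 / 1024 - 805 / 294912 := by
  have h := intervalIntegral.integral_comp_sub_mul (a := 0) (b := 1) (fun y : ℝ => PP (y ^ 2))
    (show (2:ℝ) ≠ 0 by norm_num) 1
  rw [h]
  have e : ∀ y : ℝ, PP (y ^ 2) = 1 - y ^ 2 / 8 - 7 / 128 * y ^ 4 - 35 / 1024 * y ^ 6 -
      805 / 32768 * y ^ 8 := by
    intro y; unfold PP; ring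
  simp_rw [e]
  have i : ∀ n : ℕ, IntervalIntegrable (fun y : ℝ => y ^ n) volume (1 - 2 * 1) (1 - 2 * 0) :=
    fun n => (continuous_pow n).intervalIntegrable _ _
  rw [intervalIntegral.integral_sub, intervalIntegral.integral_sub, intervalIntegral.integral_sub,
    intervalIntegral.integral_sub]
  · simp only [intervalIntegral.integral_const_mul, intervalIntegral.integral_div, integral_pow,
      intervalIntegral.integral_const]
    norm_num
  all_goals exact Continuous.intervalIntegrable (by fun_prop) _ _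

theorem BB_le : BB ≤ 7903 / 10000 := by
  have h4 : (0:ℝ) < (4:ℝ) ^ (1 / 8 : ℝ) := by positivity
  have h1 : BB ≤ ∫ u in (0:ℝ)..1, ((4:ℝ) ^ (1 / 8 : ℝ))⁻¹ * PP ((1 - 2 * u) ^ 2) := by
    unfold BB
    refine intervalIntegral.integral_mono_on zero_le_one (kc.intervalIntegrable _ _)
      (Continuous.intervalIntegrable (by unfold PP; fun_prop) _ _) fun u hu => ?_
    have h2 : (1 - 2 * u) ^ 2 ≤ 1 := by nlinarith [hu.1, hu.2]
    have h3 := binom_le (sq_nonneg (1 - 2 * u)) h2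
    have h5 : u * (1 - u) = (1 - (1 - 2 * u) ^ 2) / 4 := by ring
    rw [h5, Real.div_rpow (by linarith) (by norm_num), div_eq_inv_mul]
    exact mul_le_mul_of_nonneg_left h3 (by positivity)
  rw [intervalIntegral.integral_const_mul, int_PP] at h1
  have h6 : ((4:ℝ) ^ (1 / 8 : ℝ))⁻¹ ≤ (1189207 / 1000000 : ℝ)⁻¹ :=
    inv_anti₀ (by norm_num) two_le
  refine h1.trans ?_
  calc ((4:ℝ) ^ (1 / 8 : ℝ))⁻¹ * (1 - 1 / 24 - 7 / 640 - 5 / 1024 - 805 / 294912) ≤
      (1189207 / 1000000 : ℝ)⁻¹ * (1 - 1 / 24 - 7 / 640 - 5 / 1024 - 805 / 294912) :=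
        mul_le_mul_of_nonneg_right h6 (by norm_num)
    _ ≤ _ := by norm_num

end

end Pool.Agent.L7h48.FU
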