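import Pool.Agent.R313.FM.Coef

set_option autoImplicit false

/-!
Sums with coefficients `d_{1/2}` and the averaged partial sums of zeta.
-/

namespace Pool.Agent.L7h48.FU

open Finset Filter Topology MeasureTheory Complex
open Pool.Agent.H306R2 (dv dA dA_apply dA_mul dA_one zR aF aF_pos dv_nonneg)
open Pool.Agent.W184 (DS mv_DS dv_le_one gI)

noncomputable section

/-- the point `1/2 + it` -/
def cl (t : ℝ) : ℂ := ((1 / 2 : ℝ) : ℂ) + (t : ℂ) * I

/-- `n^{-1/2-it}` -/
def mo (n : ℕ) (t : ℝ) : ℂ := (n : ℂ) ^ (-(cl t))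

lemma mo_cont (n : ℕ) : Continuous (mo n) := by
  rcases Nat.eq_zero_or_pos n with h | h
  · subst h
    have : mo 0 = fun _ => (0 : ℂ) := by
      funext t
      unfold mo cl
      rw [Nat.cast_zero, Complex.zero_cpow]
      intro h
      have := congrArg Complex.re h
      simp at this
    rw [this]
    exact continuous_const
  · unfold mo cl
    have hn : (n : ℂ) ≠ 0 := by exact_mod_cast h.ne'
    exact Continuous.const_cpow (by fun_prop) (Or.inl hn)

lemma mo_mul (m n : ℕ) (t : ℝ) : mo (m * n) t = mo m t * mo n t := by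
  unfold mo
  rw [Nat.cast_mul, Complex.natCast_mul_natCast_cpow]

lemma mo_norm {n : ℕ} (t : ℝ) : ‖mo n t‖ ≤ 1 := by
  rcases Nat.eq_zero_or_pos n with h | h
  · subst h
    unfold mo cl
    rw [Nat.cast_zero, Complex.zero_cpow]
    · simp
    · intro h
      have := congrArg Complex.re h
      simp at this
  · unfold mo
    rw [Complex.norm_natCast_cpow_of_pos h]
    have h1 : (1 : ℝ) ≤ n := by exact_mod_cast h
    refine Real.rpow_le_one_of_one_le_of_nonpos h1 ?_
    unfold cl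
    simp

/-- the coefficients -/
def dh (n : ℕ) : ℝ := dv (1 / 2) n

lemma dh0 (n : ℕ) : 0 ≤ dh n := dv_nonneg (by norm_num) n

lemma dh1 (n : ℕ) : dh n ≤ 1 := dv_le_one (by norm_num) (by norm_num) n

lemma dh_conv {n : ℕ} (hn : 1 ≤ n) : ∑ p ∈ n.divisorsAntidiagonal, dh p.1 * dh p.2 = 1 := by
  have h : dA (1 / 2) * dA (1 / 2) = dA 1 := by
    rw [dA_mul]; norm_num
  have h1 := congrArg (fun f => f n) h
  simp only [ArithmeticFunction.mul_apply, dA_apply] at h1
  have h2 : dv 1 n = 1 := by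
    rw [← dA_apply, dA_one]
    unfold zR
    rw [ArithmeticFunction.natCoe_apply, ArithmeticFunction.zeta_apply, if_neg (by omega)]
    simp
  rw [h2] at h1
  exact h1

/-- truncated coefficients -/
def gv (v : ℝ) (n : ℕ) : ℝ := if Real.log n ≤ v then dh n else 0

lemma gv0 (v : ℝ) (n : ℕ) : 0 ≤ gv v n := by
  unfold gv; split_ifs
  · exact dh0 n
  · exact le_rfl

lemma gv1 (v : ℝ) (n : ℕ) : gv v n ≤ 1 := by
  unfold gv; split_ifs
  · exact dh1 n
  · exact zero_le_one

/-- the sum over `log m ≤ v` with coefficients `d_{1/2}` -/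
def Am (N : ℕ) (v t : ℝ) : ℂ := ∑ m ∈ Icc 1 N, (gv v m : ℂ) * mo m t

lemma Am_DS (N : ℕ) (v t : ℝ) : Am N v t = DS (gv v) N (((1 / 2 : ℝ) : ℂ) + (t : ℂ) * I) := rfl

/-- the sum `∑ (x - log n)_+ n^{-s}` -/
def JJ (N : ℕ) (x t : ℝ) : ℂ := ∑ n ∈ Icc 1 N, ((max (x - Real.log n) 0 : ℝ) : ℂ) * mo n t

lemma ii_of_bd {f : ℝ → ℝ} (hf : Measurable f) {B : ℝ} (hB : ∀ s, |f s| ≤ B) (a b : ℝ) :
    IntervalIntegrable f volume a b := by
  constructor
  · exact Integrable.of_bound (C := B) hf.aestronglyMeasurable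
      (Eventually.of_forall fun z => by rw [Real.norm_eq_abs]; exact hB z)
  · exact Integrable.of_bound (C := B) hf.aestronglyMeasurable
      (Eventually.of_forall fun z => by rw [Real.norm_eq_abs]; exact hB z)

/-- the overlap -/
lemma int_ind {x a b : ℝ} (hx : 0 ≤ x) (ha : 0 ≤ a) (hb : 0 ≤ b) :
    ∫ v in (0:ℝ)..x, (if a ≤ v then (1:ℝ) else 0) * (if b ≤ x - v then (1:ℝ) else 0) =
      max (x - (a + b)) 0 := by
  have e : ∀ v : ℝ, (if a ≤ v then (1:ℝ) else 0) * (if b ≤ x - v then (1:ℝ) else 0) =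
      (Set.Icc a (x - b)).indicator (fun _ => (1:ℝ)) v := by
    intro v
    by_cases h : v ∈ Set.Icc a (x - b)
    · rw [Set.indicator_of_mem h, if_pos h.1, if_pos (by linarith [h.2]), one_mul]
    · rw [Set.indicator_of_notMem h]
      by_cases h1 : a ≤ v
      · rw [if_neg (c := b ≤ x - v), mul_zero]
        intro h2
        exact h ⟨h1, by linarith⟩
      · rw [if_neg h1, zero_mul]
  simp_rw [e]
  rw [intervalIntegral.integral_of_le hx, ← integral_Icc_eq_integral_Ioc,
    setIntegral_indicator measurableSet_Icc, Set.inter_eq_self_of_subset_right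
      (Set.Icc_subset_Icc ha (by linarith)), setIntegral_const, smul_eq_mul, mul_one,
      Measure.real, Real.volume_Icc]
  rw [ENNReal.toReal_ofReal', show x - b - a = x - (a + b) by ring]

lemma gv_meas (n : ℕ) : Measurable (fun v => gv v n) := by
  unfold gv
  exact Measurable.ite (measurableSet_le measurable_const measurable_id) measurable_const
    measurable_const

lemma Am_meas (N : ℕ) : Measurable (fun z : ℝ × ℝ => Am N z.1 z.2) := by
  unfold Am
  refine Finset.measurable_sum _ fun m _ => ?_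
  exact (Complex.measurable_ofReal.comp ((gv_meas m).comp measurable_fst)).mul
    ((mo_cont m).measurable.comp measurable_snd)

lemma Am_bd (N : ℕ) (v t : ℝ) : ‖Am N v t‖ ≤ N := by
  unfold Am
  refine (norm_sum_le _ _).trans ?_
  have h : ∀ n ∈ Icc 1 N, ‖(gv v n : ℂ) * mo n t‖ ≤ 1 := by
    intro n _
    rw [norm_mul, Complex.norm_real, Real.norm_eq_abs, abs_of_nonneg (gv0 v n)]
    exact mul_le_one₀ (gv1 v n) (norm_nonneg _) (mo_norm t)
  refine (sum_le_sum h).trans ?_
  simp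

lemma Am_cont (N : ℕ) (v : ℝ) : Continuous (Am N v) := by
  unfold Am
  exact continuous_finsetSum _ fun m _ => continuous_const.mul (mo_cont m)

/-- regrouping a double sum -/
lemma regroup {N : ℕ} (F : ℕ → ℕ → ℂ) (hF : ∀ m ∈ Icc 1 N, ∀ l ∈ Icc 1 N, N < m * l → F m l = 0) :
    ∑ m ∈ Icc 1 N, ∑ l ∈ Icc 1 N, F m l = ∑ n ∈ Icc 1 N, ∑ p ∈ n.divisorsAntidiagonal, F p.1 p.2 := by
  rw [← sum_product', sum_sigma']
  symm
  refine sum_bij_ne_zero (fun x _ _ => x.2) ?_ ?_ ?_ ?_
  · rintro ⟨n, p⟩ h _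
    rw [mem_sigma, mem_Icc, Nat.mem_divisorsAntidiagonal] at h
    obtain ⟨⟨h1, h2⟩, h3, h4⟩ := h
    rw [mem_product, mem_Icc, mem_Icc]
    simp only at h1 h2 h3 h4 ⊢
    have hp1 : 0 < p.1 := by
      rcases Nat.eq_zero_or_pos p.1 with h | h
      · rw [h, zero_mul] at h3; omega
      · exact h
    have hp2 : 0 < p.2 := by
      rcases Nat.eq_zero_or_pos p.2 with h | h
      · rw [h, mul_zero] at h3; omega
      · exact h
    refine ⟨⟨hp1, ?_⟩, hp2, ?_⟩
    · exact (Nat.le_mul_of_pos_right _ hp2).trans (h3.le.trans h2)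
    · exact (Nat.le_mul_of_pos_left _ hp1).trans (h3.le.trans h2)
  · rintro ⟨n, p⟩ h _ ⟨n', p'⟩ h' _ heq
    rw [mem_sigma, Nat.mem_divisorsAntidiagonal] at h h'
    simp only at heq h h'
    obtain ⟨-, h, -⟩ := h
    obtain ⟨-, h', -⟩ := h'
    subst heq
    have : n = n' := by rw [← h, ← h']
    subst this
    rfl
  · rintro ⟨m, l⟩ h h0
    rw [mem_product] at h
    have hml : m * l ≤ N := by
      by_contra hlt
      exact h0 (hF m h.1 l h.2 (Nat.lt_of_not_le hlt))
    have h1 := (mem_Icc.1 h.1).1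
    have h2 := (mem_Icc.1 h.2).1
    simp only at h1 h2
    have h3 : 1 ≤ m * l := Nat.mul_pos h1 h2
    refine ⟨⟨m * l, (m, l)⟩, ?_, h0, rfl⟩
    rw [mem_sigma, mem_Icc, Nat.mem_divisorsAntidiagonal]
    exact ⟨⟨h3, hml⟩, rfl, Nat.one_le_iff_ne_zero.1 h3⟩
  · rintro ⟨n, p⟩ _ _
    rfl

/-- the averaged partial sum as a convolution -/
theorem JJ_eq {N : ℕ} {x : ℝ} (hx : 0 ≤ x) (hN : Real.exp x ≤ N) (t : ℝ) :
    JJ N x t = ∫ v in (0:ℝ)..x, Am N v t * Am N (x - v) t := by
  have hint : ∀ a b : ℝ, IntervalIntegrable (fun v : ℝ => (if a ≤ v then (1:ℝ) else 0) *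
      (if b ≤ x - v then (1:ℝ) else 0)) volume 0 x := by
    intro a b
    have h1 : Measurable (fun v : ℝ => (if a ≤ v then (1:ℝ) else 0) *
      (if b ≤ x - v then (1:ℝ) else 0)) := by
      refine Measurable.mul (Measurable.ite (measurableSet_le measurable_const measurable_id)
        measurable_const measurable_const) (Measurable.ite (measurableSet_le measurable_const
        (measurable_const.sub measurable_id)) measurable_const measurable_const)
    refine ii_of_bd h1 (B := 1) (fun v => ?_) _ _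
    split_ifs <;> simp
  have e1 : ∀ v : ℝ, Am N v t * Am N (x - v) t = ∑ m ∈ Icc 1 N, ∑ l ∈ Icc 1 N,
      ((((if Real.log m ≤ v then (1:ℝ) else 0) * (if Real.log l ≤ x - v then (1:ℝ) else 0) : ℝ)) : ℂ) *
        (((dh m * dh l : ℝ) : ℂ) * mo (m * l) t) := by
    intro v
    unfold Am
    rw [sum_mul_sum]
    refine sum_congr rfl fun m _ => sum_congr rfl fun l _ => ?_
    rw [mo_mul]
    unfold gv
    split_ifs <;> push_cast <;> ring
  have e2 : ∀ m ∈ Icc 1 N, ∀ l ∈ Icc 1 N, ∫ v in (0:ℝ)..x,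
      ((((if Real.log m ≤ v then (1:ℝ) else 0) * (if Real.log l ≤ x - v then (1:ℝ) else 0) : ℝ)) : ℂ) *
        (((dh m * dh l : ℝ) : ℂ) * mo (m * l) t) =
      ((max (x - Real.log ((m * l : ℕ) : ℝ)) 0 : ℝ) : ℂ) * (((dh m * dh l : ℝ) : ℂ) * mo (m * l) t) := by
    intro m hm l hl
    rw [mem_Icc] at hm hl
    rw [intervalIntegral.integral_mul_const, intervalIntegral.integral_ofReal,
      int_ind hx (Real.log_nonneg (by exact_mod_cast hm.1)) (Real.log_nonneg (by exact_mod_cast hl.1))]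
    have hm0 : (m : ℝ) ≠ 0 := by
      have : 0 < m := hm.1
      positivity
    have hl0 : (l : ℝ) ≠ 0 := by
      have : 0 < l := hl.1
      positivity
    rw [Nat.cast_mul, Real.log_mul hm0 hl0]
  have hii : ∀ m l : ℕ, IntervalIntegrable (fun v : ℝ =>
      ((((if Real.log m ≤ v then (1:ℝ) else 0) * (if Real.log l ≤ x - v then (1:ℝ) else 0) : ℝ)) : ℂ) *
        (((dh m * dh l : ℝ) : ℂ) * mo (m * l) t)) volume 0 x := fun m l =>
    IntervalIntegrable.mul_const ⟨(hint (Real.log m) (Real.log l)).1.ofReal,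
      (hint (Real.log m) (Real.log l)).2.ofReal⟩ _
  have hii2 : ∀ m : ℕ, IntervalIntegrable (fun v : ℝ => ∑ l ∈ Icc 1 N,
      ((((if Real.log m ≤ v then (1:ℝ) else 0) * (if Real.log l ≤ x - v then (1:ℝ) else 0) : ℝ)) : ℂ) *
        (((dh m * dh l : ℝ) : ℂ) * mo (m * l) t)) volume 0 x := by
    intro m
    have h := IntervalIntegrable.sum (Icc 1 N) (fun l _ => hii m l)
    rwa [Finset.sum_fn] at h
  have e3 : ∫ v in (0:ℝ)..x, Am N v t * Am N (x - v) t = ∑ m ∈ Icc 1 N, ∑ l ∈ Icc 1 N,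
      ((max (x - Real.log ((m * l : ℕ) : ℝ)) 0 : ℝ) : ℂ) * (((dh m * dh l : ℝ) : ℂ) * mo (m * l) t) := by
    simp_rw [e1]
    rw [intervalIntegral.integral_finsetSum (fun m _ => hii2 m)]
    refine sum_congr rfl fun m hm => ?_
    rw [intervalIntegral.integral_finsetSum (fun l _ => hii m l)]
    exact sum_congr rfl fun l hl => e2 m hm l hl
  rw [e3, regroup (fun m l => ((max (x - Real.log ((m * l : ℕ) : ℝ)) 0 : ℝ) : ℂ) *
    (((dh m * dh l : ℝ) : ℂ) * mo (m * l) t))]
  · unfold JJ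
    refine sum_congr rfl fun n hn => ?_
    rw [mem_Icc] at hn
    have e4 : ∀ p ∈ n.divisorsAntidiagonal, ((max (x - Real.log ((p.1 * p.2 : ℕ) : ℝ)) 0 : ℝ) : ℂ) *
        (((dh p.1 * dh p.2 : ℝ) : ℂ) * mo (p.1 * p.2) t) =
        (((max (x - Real.log n) 0 : ℝ) : ℂ) * mo n t) * ((dh p.1 * dh p.2 : ℝ) : ℂ) := by
      intro p hp
      rw [Nat.mem_divisorsAntidiagonal] at hp
      rw [hp.1]
      ring
    rw [sum_congr rfl e4, ← mul_sum, ← Complex.ofReal_sum, dh_conv hn.1]
    simp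
  · intro m _ l _ hml
    have h1 : x ≤ Real.log ((m * l : ℕ) : ℝ) := by
      have h2 : (N : ℝ) < ((m * l : ℕ) : ℝ) := by exact_mod_cast hml
      rw [← Real.log_exp x]
      exact Real.log_le_log (Real.exp_pos x) (hN.trans h2.le)
    rw [max_eq_right (by linarith)]
    simp

end

end Pool.Agent.L7h48.FU
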